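import Pool.Agent.Helper39.RZ2.R4a

/-!
# Poisson summation for Gaussians over a planar lattice with a shift
-/

set_option autoImplicit false

open Filter Topology Set

namespace Pool.Agent.Helper28.RZL

open Pool.Agent.Helper42.RZ2 Pool.Agent.Helper39.RZ2

theorem norm_sq_eq (z : ℂ) : ‖z‖ ^ 2 = z.re ^ 2 + z.im ^ 2 := by
  rw [← Complex.normSq_eq_norm_sq, Complex.normSq_apply]
  ring

theorem abs_add_sq_le (k : ℤ × ℤ) :
    |(k.1 : ℝ)| + |(k.2 : ℝ)| ≤ (|(k.1 : ℝ)| + |(k.2 : ℝ)|) ^ 2 := by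
  have h1 : ∃ n : ℕ, |(k.1 : ℝ)| + |(k.2 : ℝ)| = n := by
    refine ⟨k.1.natAbs + k.2.natAbs, ?_⟩
    push_cast
    rw [Nat.cast_natAbs, Nat.cast_natAbs]
    push_cast
    rfl
  obtain ⟨n, hn⟩ := h1
  rw [hn]
  exact_mod_cast Nat.le_self_pow (by norm_num) n

/-- summability of a Gaussian over a shifted lattice -/
theorem summable_gauss {a b : ℂ} (h : dt a b ≠ 0) {t : ℝ} (ht : 0 < t) (x : ℂ) :
    Summable fun k : ℤ × ℤ => Real.exp (-(t * ‖x + lv a b k‖ ^ 2)) := by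
  have hdt : 0 < |dt a b| := abs_pos.2 h
  have hab : 0 < ‖a‖ + ‖b‖ := by
    rcases eq_or_ne a 0 with ha | ha
    · exfalso
      apply h
      simp [dt, ha]
    · have : 0 < ‖a‖ := norm_pos_iff.2 ha
      positivity
  set c : ℝ := |dt a b| / (‖a‖ + ‖b‖) with hc
  have hc0 : 0 < c := by positivity
  have hlow : ∀ k : ℤ × ℤ, c * (|(k.1 : ℝ)| + |(k.2 : ℝ)|) ≤ ‖lv a b k‖ := by
    intro k
    rw [hc, div_mul_eq_mul_div, div_le_iff₀ hab]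
    exact lv_lower a b k
  refine Summable.of_nonneg_of_le (fun k => (Real.exp_pos _).le) (fun k => ?_)
    ((summable_exp_abs_prod (d := t * c ^ 2 / 2) (by positivity)).mul_left
      (Real.exp (t * ‖x‖ ^ 2)))
  rw [← Real.exp_add]
  refine Real.exp_le_exp.2 ?_
  have h1 : ‖lv a b k‖ ≤ ‖x + lv a b k‖ + ‖x‖ := by
    have := norm_sub_le (x + lv a b k) x
    rwa [add_sub_cancel_left] at this
  have h2 : ‖lv a b k‖ ^ 2 ≤ 2 * ‖x + lv a b k‖ ^ 2 + 2 * ‖x‖ ^ 2 := by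
    have h3 := norm_nonneg (lv a b k)
    nlinarith [sq_nonneg (‖x + lv a b k‖ - ‖x‖), norm_nonneg x, norm_nonneg (x + lv a b k)]
  have h3 := abs_add_sq_le k
  have h4 : c ^ 2 * (|(k.1 : ℝ)| + |(k.2 : ℝ)|) ≤ ‖lv a b k‖ ^ 2 := by
    have h5 : (c * (|(k.1 : ℝ)| + |(k.2 : ℝ)|)) ^ 2 ≤ ‖lv a b k‖ ^ 2 :=
      pow_le_pow_left₀ (by positivity) (hlow k) 2
    have h6 : c ^ 2 * (|(k.1 : ℝ)| + |(k.2 : ℝ)|) ≤ c ^ 2 * (|(k.1 : ℝ)| + |(k.2 : ℝ)|) ^ 2 :=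
      mul_le_mul_of_nonneg_left h3 (by positivity)
    nlinarith
  have h5 := mul_le_mul_of_nonneg_left (h4.trans h2) ht.le
  nlinarith

theorem summable_int {c : ℝ} (hc : 0 < c) (p : ℝ) {d : ℝ} (hd : d ≠ 0) :
    Summable fun k : ℤ => Real.exp (-(c * (p + k * d) ^ 2)) := by
  have hd2 : 0 < d ^ 2 := by positivity
  refine Summable.of_nonneg_of_le (fun k => (Real.exp_pos _).le) (fun k => ?_)
    ((summable_exp_abs (d := c * d ^ 2 / 2) (by positivity)).mul_left (Real.exp (c * p ^ 2)))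
  rw [← Real.exp_add]
  refine Real.exp_le_exp.2 ?_
  have h1 : |(k : ℝ)| ≤ (k : ℝ) ^ 2 := by
    have h2 := abs_add_sq_le (k, 0)
    simp only [Int.cast_zero, abs_zero, add_zero, sq_abs] at h2
    exact h2
  have h2 : (k * d) ^ 2 ≤ 2 * (p + k * d) ^ 2 + 2 * p ^ 2 := by
    nlinarith [sq_nonneg (2 * p + k * d)]
  have h3 : d ^ 2 * |(k : ℝ)| ≤ (k * d) ^ 2 := by
    rw [mul_pow, mul_comm]
    exact mul_le_mul_of_nonneg_right h1 hd2.le
  have h4 := mul_le_mul_of_nonneg_left (h3.trans h2) hc.le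
  nlinarith

/-- the scalar product of the plane -/
noncomputable def ip (a b : ℂ) : ℝ := a.re * b.re + a.im * b.im

/-- first step: summation in the direction `b` -/
theorem pois1 {b : ℂ} (hb : b ≠ 0) {t : ℝ} (ht : 0 < t) (z : ℂ) :
    ∑' k : ℤ, ((Real.exp (-(Real.pi * t * ‖z + k * b‖ ^ 2)) : ℝ) : ℂ) =
      1 / ((t * ‖b‖ ^ 2 : ℝ) : ℂ) ^ (1 / 2 : ℂ) * ∑' n : ℤ,
        Complex.exp (-Real.pi * t * dt z b ^ 2 / ‖b‖ ^ 2 - Real.pi * n ^ 2 / (t * ‖b‖ ^ 2) +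
          2 * Real.pi * Complex.I * n * ip b z / ‖b‖ ^ 2) := by
  have hb2 : 0 < ‖b‖ ^ 2 := by
    have := norm_pos_iff.2 hb
    positivity
  have hb0 : ((‖b‖ : ℝ) : ℂ) ≠ 0 := by
    exact_mod_cast (norm_pos_iff.2 hb).ne'
  have ht0 : (t : ℂ) ≠ 0 := by exact_mod_cast ht.ne'
  have h1 := Complex.tsum_exp_neg_quadratic (a := ((t * ‖b‖ ^ 2 : ℝ) : ℂ))
    (by rw [Complex.ofReal_re]; positivity) (-(t * ip b z : ℝ) : ℂ)
  have h2 : ∀ k : ℤ, ((Real.exp (-(Real.pi * t * ‖z + k * b‖ ^ 2)) : ℝ) : ℂ) =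
      Complex.exp (-(Real.pi * t * ‖z‖ ^ 2 : ℝ)) *
        Complex.exp (-Real.pi * ((t * ‖b‖ ^ 2 : ℝ) : ℂ) * k ^ 2 +
          2 * Real.pi * (-(t * ip b z : ℝ) : ℂ) * k) := by
    intro k
    rw [Complex.ofReal_exp, ← Complex.exp_add]
    congr 1
    have h3 : ‖z + k * b‖ ^ 2 = ‖z‖ ^ 2 + 2 * k * ip b z + k ^ 2 * ‖b‖ ^ 2 := by
      rw [norm_sq_eq, norm_sq_eq, norm_sq_eq, ip]
      simp
      ring
    rw [h3]
    push_cast
    ring
  have h4 : ∀ n : ℤ, Complex.exp (-Real.pi * t * dt z b ^ 2 / ‖b‖ ^ 2 -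
      Real.pi * n ^ 2 / (t * ‖b‖ ^ 2) + 2 * Real.pi * Complex.I * n * ip b z / ‖b‖ ^ 2) =
      Complex.exp (-(Real.pi * t * ‖z‖ ^ 2 : ℝ)) *
        Complex.exp (-Real.pi / ((t * ‖b‖ ^ 2 : ℝ) : ℂ) *
          (n + Complex.I * (-(t * ip b z : ℝ) : ℂ)) ^ 2) := by
    intro n
    rw [← Complex.exp_add]
    congr 1
    have h3 : dt z b ^ 2 = ‖z‖ ^ 2 * ‖b‖ ^ 2 - ip b z ^ 2 := by
      rw [norm_sq_eq, norm_sq_eq, ip, dt]
      ring
    have h3' : ((dt z b : ℝ) : ℂ) ^ 2 = (‖z‖ : ℂ) ^ 2 * (‖b‖ : ℂ) ^ 2 - (ip b z : ℂ) ^ 2 := by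
      exact_mod_cast h3
    rw [h3']
    push_cast
    field_simp
    ring_nf
    rw [Complex.I_sq]
    ring
  simp only [h2, h4, tsum_mul_left]
  rw [h1]
  ring

/-- second step -/
theorem pois2 {a b : ℂ} (h : dt a b ≠ 0) {t : ℝ} (ht : 0 < t) (x : ℂ) (n : ℤ) :
    ∑' k : ℤ, Complex.exp (-Real.pi * t * dt (x + k * a) b ^ 2 / ‖b‖ ^ 2 -
        Real.pi * n ^ 2 / (t * ‖b‖ ^ 2) +
          2 * Real.pi * Complex.I * n * ip b (x + k * a) / ‖b‖ ^ 2) =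
      1 / ((t * dt a b ^ 2 / ‖b‖ ^ 2 : ℝ) : ℂ) ^ (1 / 2 : ℂ) * ∑' l : ℤ,
        (((Real.exp (-(Real.pi / (t * dt a b ^ 2) * ‖lv a (-b) (n, l)‖ ^ 2)) : ℝ) : ℂ) *
          Complex.exp (2 * Real.pi * Complex.I * ((n * dt a x + l * dt x b) / dt a b : ℝ))) := by
  have hb : b ≠ 0 := by
    rintro rfl
    apply h
    simp [dt]
  have hb2 : 0 < ‖b‖ ^ 2 := by
    have := norm_pos_iff.2 hb
    positivity
  have hb0 : ((‖b‖ : ℝ) : ℂ) ≠ 0 := by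
    exact_mod_cast (norm_pos_iff.2 hb).ne'
  have ht0 : (t : ℂ) ≠ 0 := by exact_mod_cast ht.ne'
  have hD : ((dt a b : ℝ) : ℂ) ≠ 0 := by exact_mod_cast h
  have hD2 : 0 < dt a b ^ 2 := by positivity
  have h1 := Complex.tsum_exp_neg_quadratic (a := ((t * dt a b ^ 2 / ‖b‖ ^ 2 : ℝ) : ℂ))
    (by rw [Complex.ofReal_re]; positivity)
    (-(t * dt x b * dt a b / ‖b‖ ^ 2 : ℝ) + Complex.I * (n * ip b a / ‖b‖ ^ 2 : ℝ) : ℂ)
  set A : ℂ := -Real.pi * t * dt x b ^ 2 / ‖b‖ ^ 2 - Real.pi * n ^ 2 / (t * ‖b‖ ^ 2) +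
    2 * Real.pi * Complex.I * n * ip b x / ‖b‖ ^ 2 with hA
  have h2 : ∀ k : ℤ, Complex.exp (-Real.pi * t * dt (x + k * a) b ^ 2 / ‖b‖ ^ 2 -
      Real.pi * n ^ 2 / (t * ‖b‖ ^ 2) + 2 * Real.pi * Complex.I * n * ip b (x + k * a) / ‖b‖ ^ 2) =
      Complex.exp A * Complex.exp (-Real.pi * ((t * dt a b ^ 2 / ‖b‖ ^ 2 : ℝ) : ℂ) * k ^ 2 +
        2 * Real.pi * (-(t * dt x b * dt a b / ‖b‖ ^ 2 : ℝ) +
          Complex.I * (n * ip b a / ‖b‖ ^ 2 : ℝ) : ℂ) * k) := by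
    intro k
    rw [← Complex.exp_add]
    congr 1
    have h3 : dt (x + k * a) b = dt x b + k * dt a b := by
      simp [dt]
      ring
    have h4 : ip b (x + k * a) = ip b x + k * ip b a := by
      simp [ip]
      ring
    rw [h3, h4, hA]
    push_cast
    field_simp
    ring
  have h5 : ∀ l : ℤ, (((Real.exp (-(Real.pi / (t * dt a b ^ 2) *
      ‖lv a (-b) (n, l)‖ ^ 2)) : ℝ) : ℂ) *
      Complex.exp (2 * Real.pi * Complex.I * ((n * dt a x + l * dt x b) / dt a b : ℝ))) =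
      Complex.exp A * Complex.exp (-Real.pi / ((t * dt a b ^ 2 / ‖b‖ ^ 2 : ℝ) : ℂ) *
        (l + Complex.I * (-(t * dt x b * dt a b / ‖b‖ ^ 2 : ℝ) +
          Complex.I * (n * ip b a / ‖b‖ ^ 2 : ℝ) : ℂ)) ^ 2) := by
    intro l
    rw [Complex.ofReal_exp, ← Complex.exp_add, ← Complex.exp_add]
    congr 1
    have h6 : ‖lv a (-b) (n, l)‖ ^ 2 * ‖b‖ ^ 2 =
        l ^ 2 * (‖b‖ ^ 2) ^ 2 - 2 * l * n * ip b a * ‖b‖ ^ 2 +
          n ^ 2 * (ip b a ^ 2 + dt a b ^ 2) := by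
      rw [norm_sq_eq, norm_sq_eq, ip, dt, lv]
      simp
      ring
    have h7 : ip b x * dt a b - ip b a * dt x b = ‖b‖ ^ 2 * dt a x := by
      rw [norm_sq_eq, ip, ip, dt, dt, dt]
      ring
    have h8 : ‖lv a (-b) (n, l)‖ ^ 2 = (l ^ 2 * (‖b‖ ^ 2) ^ 2 - 2 * l * n * ip b a * ‖b‖ ^ 2 +
          n ^ 2 * (ip b a ^ 2 + dt a b ^ 2)) / ‖b‖ ^ 2 := by
      rw [← h6]
      field_simp
    have h9 : dt a x = (ip b x * dt a b - ip b a * dt x b) / ‖b‖ ^ 2 := by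
      rw [h7]
      field_simp
    rw [h8, h9, hA]
    push_cast
    field_simp
    ring_nf
    simp only [Complex.I_sq, show Complex.I ^ 3 = -Complex.I by
      rw [pow_succ, Complex.I_sq]; ring, show Complex.I ^ 4 = 1 by
      rw [show (4 : ℕ) = 2 * 2 from rfl, pow_mul, Complex.I_sq]; ring]
    ring
  simp only [h2, h5, tsum_mul_left]
  rw [h1]
  ring

theorem cpow_half_mul {p q r : ℝ} (hp : 0 < p) (hq : 0 < q) (hr : 0 ≤ r) (h : p * q = r ^ 2) :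
    1 / (p : ℂ) ^ (1 / 2 : ℂ) * (1 / (q : ℂ) ^ (1 / 2 : ℂ)) = ((1 / r : ℝ) : ℂ) := by
  have h1 : ∀ u : ℝ, 0 < u → (u : ℂ) ^ (1 / 2 : ℂ) = ((√u : ℝ) : ℂ) := by
    intro u hu
    rw [Real.sqrt_eq_rpow, Complex.ofReal_cpow hu.le]
    norm_num
  rw [h1 p hp, h1 q hq, ← Real.sqrt_sq hr, ← h, Real.sqrt_mul hp.le]
  push_cast
  ring

/-- Poisson summation for the Gaussian over a shifted planar lattice -/
theorem pois {a b : ℂ} (h : dt a b ≠ 0) {t : ℝ} (ht : 0 < t) (x : ℂ) :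
    ∑' k : ℤ × ℤ, ((Real.exp (-(Real.pi * t * ‖x + lv a b k‖ ^ 2)) : ℝ) : ℂ) =
      ((1 / (t * |dt a b|) : ℝ) : ℂ) * ∑' k : ℤ × ℤ,
        (((Real.exp (-(Real.pi / (t * dt a b ^ 2) * ‖lv a (-b) k‖ ^ 2)) : ℝ) : ℂ) *
          Complex.exp (2 * Real.pi * Complex.I *
            ((k.1 * dt a x + k.2 * dt x b) / dt a b : ℝ))) := by
  have hb : b ≠ 0 := by
    rintro rfl
    apply h
    simp [dt]
  have hb2 : 0 < ‖b‖ ^ 2 := by
    have := norm_pos_iff.2 hb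
    positivity
  have hD2 : 0 < dt a b ^ 2 := by positivity
  have hpi := Real.pi_pos
  have hs1 : Summable fun k : ℤ × ℤ =>
      ((Real.exp (-(Real.pi * t * ‖x + lv a b k‖ ^ 2)) : ℝ) : ℂ) :=
    Complex.ofRealCLM.summable (summable_gauss h (by positivity : 0 < Real.pi * t) x)
  rw [hs1.tsum_prod]
  have h1 : ∀ k : ℤ, ∑' n : ℤ, ((Real.exp (-(Real.pi * t * ‖x + lv a b (k, n)‖ ^ 2)) : ℝ) : ℂ) =
      1 / ((t * ‖b‖ ^ 2 : ℝ) : ℂ) ^ (1 / 2 : ℂ) * ∑' n : ℤ,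
        Complex.exp (-Real.pi * t * dt (x + k * a) b ^ 2 / ‖b‖ ^ 2 -
          Real.pi * n ^ 2 / (t * ‖b‖ ^ 2) +
          2 * Real.pi * Complex.I * n * ip b (x + k * a) / ‖b‖ ^ 2) := by
    intro k
    rw [← pois1 hb ht (x + k * a)]
    refine tsum_congr fun n => ?_
    rw [lv, ← add_assoc]
  simp only [h1, tsum_mul_left]
  have hs2 : Summable (Function.uncurry fun (k n : ℤ) =>
      Complex.exp (-Real.pi * t * dt (x + k * a) b ^ 2 / ‖b‖ ^ 2 -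
          Real.pi * n ^ 2 / (t * ‖b‖ ^ 2) +
          2 * Real.pi * Complex.I * n * ip b (x + k * a) / ‖b‖ ^ 2)) := by
    refine Summable.of_norm ?_
    have h2 := (summable_int (c := Real.pi * t / ‖b‖ ^ 2) (by positivity) (dt x b) h).mul_of_nonneg
      (summable_int (c := Real.pi / (t * ‖b‖ ^ 2)) (by positivity) 0 one_ne_zero)
      (fun n => (Real.exp_pos _).le) (fun n => (Real.exp_pos _).le)
    refine h2.congr fun k => ?_
    rw [← Real.exp_add, Function.uncurry, Complex.norm_exp]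
    congr 1
    have h3 : dt (x + k.1 * a) b = dt x b + k.1 * dt a b := by
      simp [dt]
      ring
    have h4 : (-Real.pi * t * dt (x + k.1 * a) b ^ 2 / ‖b‖ ^ 2 -
          Real.pi * k.2 ^ 2 / (t * ‖b‖ ^ 2) +
          2 * Real.pi * Complex.I * k.2 * ip b (x + k.1 * a) / ‖b‖ ^ 2 : ℂ) =
        ((-Real.pi * t * dt (x + k.1 * a) b ^ 2 / ‖b‖ ^ 2 -
          Real.pi * k.2 ^ 2 / (t * ‖b‖ ^ 2) : ℝ) : ℂ) +
          ((2 * Real.pi * k.2 * ip b (x + k.1 * a) / ‖b‖ ^ 2 : ℝ) : ℂ) * Complex.I := by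
      push_cast
      ring
    rw [h4, Complex.add_re, Complex.ofReal_re, Complex.re_ofReal_mul, Complex.I_re, h3]
    ring
  rw [← hs2.tsum_comm]
  simp only [pois2 h ht x, tsum_mul_left]
  rw [← mul_assoc, cpow_half_mul (r := t * |dt a b|) (by positivity) (by positivity)
    (by positivity) (by rw [mul_pow, sq_abs]; field_simp)]
  congr 1
  have hs3 : Summable fun k : ℤ × ℤ =>
      (((Real.exp (-(Real.pi / (t * dt a b ^ 2) * ‖lv a (-b) k‖ ^ 2)) : ℝ) : ℂ) *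
          Complex.exp (2 * Real.pi * Complex.I *
            ((k.1 * dt a x + k.2 * dt x b) / dt a b : ℝ))) := by
    refine Summable.of_norm ?_
    have hdn : dt a (-b) ≠ 0 := by
      have : dt a (-b) = -dt a b := by simp [dt]; ring
      rw [this]
      exact neg_ne_zero.2 h
    refine (summable_gauss hdn (t := Real.pi / (t * dt a b ^ 2)) (by positivity) 0).congr
      fun k => ?_
    rw [norm_mul, zero_add, Complex.norm_real, Real.norm_of_nonneg (Real.exp_pos _).le,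
      Complex.norm_exp]
    simp
  rw [hs3.tsum_prod]

end Pool.Agent.Helper28.RZL
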