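import Pool.Agent.Helper28.RZL.Ser
import Pool.Agent.Helper28.RZL.Pois

/-!
# The theta pair of a periodic configuration of the plane
-/

set_option autoImplicit false

open Filter Topology Set

namespace Pool.Agent.Helper28.RZL

open Pool.Agent.Helper42.RZ2 Pool.Agent.Helper39.RZ2

/-- a summable family of exponentials has a gap -/
theorem gap_of_summable {ι : Type} (l : ι → ℝ) (hs : Summable fun i => Real.exp (-l i)) :
    ∃ ρ : ℝ, 0 < ρ ∧ ∀ i, 0 < l i → ρ ≤ l i := by
  have h1 : {i | l i ≤ 1}.Finite := by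
    have h2 := hs.tendsto_cofinite_zero.eventually (gt_mem_nhds (Real.exp_pos (-1)))
    rw [Filter.eventually_cofinite] at h2
    refine h2.subset fun i hi => ?_
    have hi' : l i ≤ 1 := hi
    intro h3
    have h4 : Real.exp (-1) ≤ Real.exp (-l i) := Real.exp_le_exp.2 (by linarith)
    linarith
  have h3 : ∀ F : Finset ι, ∃ ρ : ℝ, 0 < ρ ∧ ρ ≤ 1 ∧ ∀ i ∈ F, 0 < l i → ρ ≤ l i := by
    intro F
    classical
    induction F using Finset.induction_on with
    | empty => exact ⟨1, one_pos, le_rfl, fun i hi => absurd hi (Finset.notMem_empty i)⟩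
    | insert a F _ ih =>
      obtain ⟨ρ, h0, h1, h2⟩ := ih
      by_cases ha : 0 < l a
      · refine ⟨min ρ (l a), lt_min h0 ha, (min_le_left _ _).trans h1, fun i hi hl => ?_⟩
        rcases Finset.mem_insert.1 hi with rfl | hi
        · exact min_le_right _ _
        · exact (min_le_left _ _).trans (h2 i hi hl)
      · refine ⟨ρ, h0, h1, fun i hi hl => ?_⟩
        rcases Finset.mem_insert.1 hi with rfl | hi
        · exact absurd hl ha
        · exact h2 i hi hl
  obtain ⟨ρ, h4, h5, h6⟩ := h3 h1.toFinset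
  refine ⟨ρ, h4, fun i hi => ?_⟩
  by_cases h7 : l i ≤ 1
  · exact h6 i (h1.mem_toFinset.2 h7) hi
  · push Not at h7
    linarith

/-- index of a pair of points, modulo the lattice -/
abbrev Ix (m : ℕ) : Type := Fin m × Fin m × (ℤ × ℤ)

variable {m : ℕ}

/-- differences of the points of the configuration -/
noncomputable def pt (a b : ℂ) (y : Fin m → ℂ) (i : Ix m) : ℂ := y i.1 - y i.2.1 + lv a b i.2.2

open Classical in
/-- weight of a pair -/
noncomputable def cw (a b : ℂ) (y : Fin m → ℂ) (i : Ix m) : ℝ :=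
  if pt a b y i = 0 then 0 else (m : ℝ)⁻¹

/-- exponent of a pair -/
noncomputable def ce (a b : ℂ) (y : Fin m → ℂ) (i : Ix m) : ℝ := Real.pi * ‖pt a b y i‖ ^ 2

/-- phase of a dual lattice point at a point -/
noncomputable def ang (a b : ℂ) (k : ℤ × ℤ) (x : ℂ) : ℝ := (k.1 * dt a x + k.2 * dt x b) / dt a b

/-- structure factor -/
noncomputable def sf (a b : ℂ) (y : Fin m → ℂ) (k : ℤ × ℤ) : ℂ :=
  (m : ℂ)⁻¹ * ∑ j, Complex.exp (2 * Real.pi * Complex.I * (ang a b k (y j) : ℝ))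

open Classical in
/-- weight of a dual lattice point -/
noncomputable def dw (a b : ℂ) (y : Fin m → ℂ) (k : ℤ × ℤ) : ℝ :=
  if k = 0 then 0 else Complex.normSq (sf a b y k)

/-- exponent of a dual lattice point -/
noncomputable def de (a b : ℂ) (k : ℤ × ℤ) : ℝ := Real.pi / dt a b ^ 2 * ‖lv a (-b) k‖ ^ 2

theorem dt_neg (a b : ℂ) : dt a (-b) = -dt a b := by
  simp [dt]
  ring

theorem lv_eq_zero {a b : ℂ} (h : dt a b ≠ 0) {k : ℤ × ℤ} (hk : lv a b k = 0) : k = 0 := by
  have h1 := lv_lower a b k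
  rw [hk, norm_zero, zero_mul] at h1
  have h2 : 0 < |dt a b| := abs_pos.2 h
  have h3 : |(k.1 : ℝ)| + |(k.2 : ℝ)| ≤ 0 := by
    by_contra h4
    push Not at h4
    have := mul_pos h2 h4
    linarith
  have h4 : (k.1 : ℝ) = 0 := abs_eq_zero.1 (le_antisymm (by linarith [abs_nonneg (k.2 : ℝ)])
    (abs_nonneg _))
  have h5 : (k.2 : ℝ) = 0 := abs_eq_zero.1 (le_antisymm (by linarith [abs_nonneg (k.1 : ℝ)])
    (abs_nonneg _))
  refine Prod.ext ?_ ?_
  · exact_mod_cast h4
  · exact_mod_cast h5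

theorem per_dt {a b : ℂ} {y : Fin m → ℂ} (hY : Per m a b y) : dt a b ≠ 0 := by
  obtain ⟨hm, hd, -⟩ := hY
  intro h
  rw [h, abs_zero] at hd
  have : m = 0 := by exact_mod_cast hd.symm
  omega

theorem pt_eq_zero {a b : ℂ} {y : Fin m → ℂ} (hY : Per m a b y) (i : Ix m) :
    pt a b y i = 0 ↔ i.1 = i.2.1 ∧ i.2.2 = 0 := by
  constructor
  · intro h
    have h1 := hY.2.2 _ _ _ h
    refine ⟨h1, lv_eq_zero (per_dt hY) ?_⟩
    rw [pt, h1, sub_self, zero_add] at h
    exact h
  · rintro ⟨h1, h2⟩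
    rw [pt, h1, h2, sub_self, zero_add]
    simp [lv]

theorem summable_ix {f : Ix m → ℝ} (hf : ∀ i, 0 ≤ f i) (h : ∀ i j, Summable fun k => f (i, j, k)) :
    Summable f := by
  rw [summable_prod_of_nonneg hf]
  refine ⟨fun i => ?_, Summable.of_finite⟩
  rw [summable_prod_of_nonneg fun x => hf (i, x)]
  exact ⟨fun j => h i j, Summable.of_finite⟩

theorem summable_ce {a b : ℂ} (hd : dt a b ≠ 0) (y : Fin m → ℂ) {t : ℝ} (ht : 0 < t) :
    Summable fun i => Real.exp (-(t * ce a b y i)) := by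
  refine summable_ix (fun i => (Real.exp_pos _).le) fun i j => ?_
  have hpi := Real.pi_pos
  refine (summable_gauss hd (t := t * Real.pi) (by positivity) (y i - y j)).congr fun k => ?_
  rw [ce, pt, mul_assoc]

theorem ok_ce {a b : ℂ} {y : Fin m → ℂ} (hY : Per m a b y) : Ok (cw a b y) (ce a b y) := by
  have hm : (0 : ℝ) ≤ (m : ℝ)⁻¹ := by positivity
  have hpi := Real.pi_pos
  have hv : ∀ i, 0 ≤ cw a b y i := by
    intro i
    unfold cw
    split_ifs
    · exact le_rfl
    · exact hm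
  refine ⟨hv, fun i => by unfold ce; positivity, ?_, fun t ht => ?_⟩
  · obtain ⟨ρ, h1, h2⟩ := gap_of_summable (ce a b y) (by
      simpa using summable_ce (per_dt hY) y one_pos)
    refine ⟨ρ, h1, fun i hi => h2 i ?_⟩
    have h3 : pt a b y i ≠ 0 := by
      intro h
      apply hi
      unfold cw
      rw [if_pos h]
    have : 0 < ‖pt a b y i‖ := norm_pos_iff.2 h3
    unfold ce
    positivity
  · refine Summable.of_nonneg_of_le (fun i => mul_nonneg (hv i) (Real.exp_pos _).le) (fun i => ?_)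
      ((summable_ce (per_dt hY) y ht).mul_left (m : ℝ)⁻¹)
    refine mul_le_mul_of_nonneg_right ?_ (Real.exp_pos _).le
    unfold cw
    split_ifs
    · exact hm
    · exact le_rfl

theorem norm_sf_le (a b : ℂ) (y : Fin m → ℂ) (k : ℤ × ℤ) : ‖sf a b y k‖ ≤ 1 := by
  rw [sf, norm_mul, norm_inv, Complex.norm_natCast]
  have h1 : ‖∑ j, Complex.exp (2 * Real.pi * Complex.I * (ang a b k (y j) : ℝ))‖ ≤ m := by
    refine (norm_sum_le _ _).trans ?_
    have h2 : ∀ j : Fin m,
        ‖Complex.exp (2 * Real.pi * Complex.I * (ang a b k (y j) : ℝ))‖ = 1 := by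
      intro j
      rw [Complex.norm_exp]
      simp
    simp [h2]
  rcases Nat.eq_zero_or_pos m with hm | hm
  · subst hm
    simp
  · have hm' : (0 : ℝ) < m := by exact_mod_cast hm
    rw [inv_mul_le_iff₀ hm', mul_one]
    exact h1

theorem summable_de {a b : ℂ} (hd : dt a b ≠ 0) {t : ℝ} (ht : 0 < t) :
    Summable fun k => Real.exp (-(t * de a b k)) := by
  have hpi := Real.pi_pos
  have hD : 0 < dt a b ^ 2 := by positivity
  have hdn : dt a (-b) ≠ 0 := by
    rw [dt_neg]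
    exact neg_ne_zero.2 hd
  refine (summable_gauss hdn (t := t * (Real.pi / dt a b ^ 2)) (by positivity) 0).congr
    fun k => ?_
  rw [de, zero_add, mul_assoc]

theorem ok_de {a b : ℂ} {y : Fin m → ℂ} (hY : Per m a b y) : Ok (dw a b y) (de a b) := by
  have hpi := Real.pi_pos
  have hd := per_dt hY
  have hD : 0 < dt a b ^ 2 := by positivity
  have hv : ∀ k, 0 ≤ dw a b y k := by
    intro k
    unfold dw
    split_ifs
    · exact le_rfl
    · exact Complex.normSq_nonneg _
  have hv1 : ∀ k, dw a b y k ≤ 1 := by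
    intro k
    unfold dw
    split_ifs
    · exact zero_le_one
    · rw [Complex.normSq_eq_norm_sq]
      exact pow_le_one₀ (norm_nonneg _) (norm_sf_le a b y k)
  refine ⟨hv, fun i => by unfold de; positivity, ?_, fun t ht => ?_⟩
  · obtain ⟨ρ, h1, h2⟩ := gap_of_summable (de a b) (by
      simpa using summable_de hd one_pos)
    refine ⟨ρ, h1, fun k hk => h2 k ?_⟩
    have h3 : k ≠ 0 := by
      intro h
      apply hk
      unfold dw
      rw [if_pos h]
    have hdn : dt a (-b) ≠ 0 := by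
      rw [dt_neg]
      exact neg_ne_zero.2 hd
    have : 0 < ‖lv a (-b) k‖ := norm_pos_iff.2 fun h => h3 (lv_eq_zero hdn h)
    unfold de
    positivity
  · refine Summable.of_nonneg_of_le (fun i => mul_nonneg (hv i) (Real.exp_pos _).le) (fun i => ?_)
      (summable_de hd ht)
    exact mul_le_of_le_one_left (Real.exp_pos _).le (hv1 i)

theorem tsum_ix {f : Ix m → ℝ} (hf : Summable f) :
    ∑' i, f i = ∑ i, ∑ j, ∑' k, f (i, j, k) := by
  rw [hf.tsum_prod, tsum_fintype]
  refine Finset.sum_congr rfl fun i _ => ?_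
  have h1 : Summable fun c => f (i, c) := hf.prod_factor i
  rw [h1.tsum_prod, tsum_fintype]

theorem ang_sub (a b : ℂ) (k : ℤ × ℤ) (x z : ℂ) :
    ang a b k (x - z) = ang a b k x - ang a b k z := by
  simp only [ang, dt, Complex.sub_re, Complex.sub_im]
  ring

/-- the double sum over the points is the structure factor -/
theorem double_sum (a b : ℂ) (y : Fin m → ℂ) (k : ℤ × ℤ) :
    (m : ℂ)⁻¹ * ∑ i, ∑ j, (m : ℂ)⁻¹ *
      Complex.exp (2 * Real.pi * Complex.I * (ang a b k (y i - y j) : ℝ)) =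
      (Complex.normSq (sf a b y k) : ℝ) := by
  rw [← Complex.mul_conj, sf, map_mul, map_sum, map_inv₀, Complex.conj_natCast]
  have h1 : ∀ j, (starRingEnd ℂ) (Complex.exp (2 * Real.pi * Complex.I *
      (ang a b k (y j) : ℝ))) = Complex.exp (-(2 * Real.pi * Complex.I *
      (ang a b k (y j) : ℝ))) := by
    intro j
    rw [← Complex.exp_conj]
    congr 1
    simp only [map_mul, Complex.conj_ofReal, Complex.conj_I, map_ofNat]
    ring
  simp only [h1]
  rw [mul_mul_mul_comm, Finset.sum_mul_sum, Finset.mul_sum, Finset.mul_sum]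
  refine Finset.sum_congr rfl fun i _ => ?_
  rw [Finset.mul_sum, Finset.mul_sum]
  refine Finset.sum_congr rfl fun j _ => ?_
  rw [← Complex.exp_add, ang_sub, ← mul_assoc]
  congr 2
  push_cast
  ring

/-- the functional equation -/
theorem theta_eq {a b : ℂ} {y : Fin m → ℂ} (hY : Per m a b y) {t : ℝ} (ht : 0 < t) :
    t * (1 + Xs (cw a b y) (ce a b y) t) = 1 + Xs (dw a b y) (de a b) (1 / t) := by
  have hd := per_dt hY
  obtain ⟨hm, hdm, hdist⟩ := id hY
  have hm0 : (0 : ℝ) < m := by exact_mod_cast hm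
  have hmc : (m : ℂ) ≠ 0 := by exact_mod_cast hm0.ne'
  have hpi := Real.pi_pos
  -- the left-hand side
  have h1 : 1 + Xs (cw a b y) (ce a b y) t =
      ∑ i, ∑ j, ∑' k, (m : ℝ)⁻¹ * Real.exp (-(Real.pi * t * ‖y i - y j + lv a b k‖ ^ 2)) := by
    rw [Xs, tsum_ix ((ok_ce hY).sm t ht)]
    have h2 : ∀ i j : Fin m, ∑' k, (m : ℝ)⁻¹ *
        Real.exp (-(Real.pi * t * ‖y i - y j + lv a b k‖ ^ 2)) =
        (if i = j then (m : ℝ)⁻¹ else 0) +
          ∑' k, cw a b y (i, j, k) * Real.exp (-(t * ce a b y (i, j, k))) := by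
      intro i j
      have h3 : ∀ k : ℤ × ℤ, (m : ℝ)⁻¹ *
          Real.exp (-(Real.pi * t * ‖y i - y j + lv a b k‖ ^ 2)) =
          (if k = 0 then (if i = j then (m : ℝ)⁻¹ else 0) else 0) +
            cw a b y (i, j, k) * Real.exp (-(t * ce a b y (i, j, k))) := by
        intro k
        have h4 := pt_eq_zero hY (i, j, k)
        have h5 : t * ce a b y (i, j, k) = Real.pi * t * ‖y i - y j + lv a b k‖ ^ 2 := by
          rw [ce, pt]
          ring
        rw [h5]
        unfold cw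
        by_cases h6 : pt a b y (i, j, k) = 0
        · have h7 := h4.1 h6
          have h8 : y i - y j + lv a b k = 0 := h6
          rw [if_pos h6, if_pos h7.2, if_pos h7.1, h8]
          simp
        · rw [if_neg h6]
          have h7 : ¬ (i = j ∧ k = 0) := fun h => h6 (h4.2 h)
          by_cases h8 : k = 0
          · rw [if_pos h8, if_neg (fun h => h7 ⟨h, h8⟩), zero_add]
          · rw [if_neg h8, zero_add]
      rw [tsum_congr h3, Summable.tsum_add, tsum_ite_eq]
      · exact (hasSum_ite_eq (0 : ℤ × ℤ) (if i = j then (m : ℝ)⁻¹ else 0)).summable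
      · have h9 := ((ok_ce hY).sm t ht).prod_factor i
        exact h9.prod_factor j
    simp only [h2, Finset.sum_add_distrib]
    congr 1
    simp only [Finset.sum_ite_eq, Finset.mem_univ, if_true, Finset.sum_const, Finset.card_univ,
      Fintype.card_fin, nsmul_eq_mul]
    field_simp
  -- the right-hand side
  have hsY := (ok_de hY).sm (1 / t) (by positivity)
  have h10 : ∀ k : ℤ × ℤ, Real.exp (-(1 / t * de a b k)) =
      Real.exp (-(Real.pi / (t * dt a b ^ 2) * ‖lv a (-b) k‖ ^ 2)) := by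
    intro k
    rw [de]
    congr 1
    field_simp
  have h11 : 1 + Xs (dw a b y) (de a b) (1 / t) =
      ∑' k, Complex.normSq (sf a b y k) *
        Real.exp (-(Real.pi / (t * dt a b ^ 2) * ‖lv a (-b) k‖ ^ 2)) := by
    have h12 : ∀ k : ℤ × ℤ, Complex.normSq (sf a b y k) *
        Real.exp (-(Real.pi / (t * dt a b ^ 2) * ‖lv a (-b) k‖ ^ 2)) =
        (if k = 0 then 1 else 0) + dw a b y k * Real.exp (-(1 / t * de a b k)) := by
      intro k
      rw [h10]
      unfold dw
      by_cases hk : k = 0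
      · rw [if_pos hk, if_pos hk, zero_mul, add_zero, hk]
        have h13 : sf a b y 0 = 1 := by
          simp [sf, ang]
          field_simp
        rw [h13]
        simp [lv]
      · rw [if_neg hk, if_neg hk, zero_add]
    rw [tsum_congr h12, Summable.tsum_add (hasSum_ite_eq (0 : ℤ × ℤ) (1 : ℝ)).summable hsY,
      tsum_ite_eq, Xs]
  rw [h1, h11]
  -- complex numbers
  have hG : Summable fun k : ℤ × ℤ =>
      Real.exp (-(Real.pi / (t * dt a b ^ 2) * ‖lv a (-b) k‖ ^ 2)) := by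
    refine (summable_de hd (t := 1 / t) (by positivity)).congr fun k => ?_
    rw [h10]
  rw [← Complex.ofReal_inj]
  push_cast
  have h14 : ∀ i j : Fin m, ∑' k : ℤ × ℤ, (m : ℂ)⁻¹ *
      ((Real.exp (-(Real.pi * t * ‖y i - y j + lv a b k‖ ^ 2)) : ℝ) : ℂ) =
      ∑' k : ℤ × ℤ, (m : ℂ)⁻¹ * ((1 / (t * m) : ℝ) *
        (((Real.exp (-(Real.pi / (t * dt a b ^ 2) * ‖lv a (-b) k‖ ^ 2)) : ℝ) : ℂ) *
          Complex.exp (2 * Real.pi * Complex.I * (ang a b k (y i - y j) : ℝ)))) := by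
    intro i j
    rw [tsum_mul_left, pois hd ht (y i - y j), hdm, tsum_mul_left, tsum_mul_left]
    rfl
  have h15 : ∀ i j : Fin m, Summable fun k : ℤ × ℤ => (m : ℂ)⁻¹ * ((1 / (t * m) : ℝ) *
        (((Real.exp (-(Real.pi / (t * dt a b ^ 2) * ‖lv a (-b) k‖ ^ 2)) : ℝ) : ℂ) *
          Complex.exp (2 * Real.pi * Complex.I * (ang a b k (y i - y j) : ℝ)))) := by
    intro i j
    refine (Summable.mul_left _ (Summable.mul_left _ (Summable.of_norm ?_)))
    refine hG.congr fun k => ?_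
    rw [norm_mul, Complex.norm_real, Real.norm_of_nonneg (Real.exp_pos _).le, Complex.norm_exp]
    simp
  have h16 : ∑ i : Fin m, ∑ j : Fin m, ∑' k : ℤ × ℤ, (m : ℂ)⁻¹ * ((1 / (t * m) : ℝ) *
        (((Real.exp (-(Real.pi / (t * dt a b ^ 2) * ‖lv a (-b) k‖ ^ 2)) : ℝ) : ℂ) *
          Complex.exp (2 * Real.pi * Complex.I * (ang a b k (y i - y j) : ℝ)))) =
      ∑' k : ℤ × ℤ, (1 / t : ℝ) * ((Complex.normSq (sf a b y k) : ℝ) *
        ((Real.exp (-(Real.pi / (t * dt a b ^ 2) * ‖lv a (-b) k‖ ^ 2)) : ℝ) : ℂ)) := by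
    have h17 : ∀ i : Fin m, ∑ j : Fin m, ∑' k : ℤ × ℤ, (m : ℂ)⁻¹ * ((1 / (t * m) : ℝ) *
        (((Real.exp (-(Real.pi / (t * dt a b ^ 2) * ‖lv a (-b) k‖ ^ 2)) : ℝ) : ℂ) *
          Complex.exp (2 * Real.pi * Complex.I * (ang a b k (y i - y j) : ℝ)))) =
        ∑' k : ℤ × ℤ, ∑ j : Fin m, (m : ℂ)⁻¹ * ((1 / (t * m) : ℝ) *
        (((Real.exp (-(Real.pi / (t * dt a b ^ 2) * ‖lv a (-b) k‖ ^ 2)) : ℝ) : ℂ) *
          Complex.exp (2 * Real.pi * Complex.I * (ang a b k (y i - y j) : ℝ)))) := fun i =>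
      (Summable.tsum_finsetSum fun j _ => h15 i j).symm
    simp only [h17]
    rw [← Summable.tsum_finsetSum fun i _ => summable_sum fun j _ => h15 i j]
    refine tsum_congr fun k => ?_
    rw [← double_sum a b y k, Finset.mul_sum, Finset.sum_mul, Finset.mul_sum]
    refine Finset.sum_congr rfl fun i _ => ?_
    rw [Finset.mul_sum, Finset.sum_mul, Finset.mul_sum]
    refine Finset.sum_congr rfl fun j _ => ?_
    push_cast
    field_simp
  have htc : (t : ℂ) ≠ 0 := by exact_mod_cast ht.ne'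
  have h18 : ∑ i : Fin m, ∑ j : Fin m, ((∑' k : ℤ × ℤ, (m : ℝ)⁻¹ *
      Real.exp (-(Real.pi * t * ‖y i - y j + lv a b k‖ ^ 2)) : ℝ) : ℂ) =
      ∑' k : ℤ × ℤ, (1 / t : ℝ) * ((Complex.normSq (sf a b y k) : ℝ) *
        ((Real.exp (-(Real.pi / (t * dt a b ^ 2) * ‖lv a (-b) k‖ ^ 2)) : ℝ) : ℂ)) := by
    rw [← h16]
    refine Finset.sum_congr rfl fun i _ => Finset.sum_congr rfl fun j _ => ?_
    rw [← h14, Complex.ofReal_tsum]
    refine tsum_congr fun k => ?_
    push_cast
    rfl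
  have h19 := h18
  rw [tsum_mul_left] at h19
  have h20 : ((∑' k, Complex.normSq (sf a b y k) *
        Real.exp (-(Real.pi / (t * dt a b ^ 2) * ‖lv a (-b) k‖ ^ 2)) : ℝ) : ℂ) =
      ∑' k : ℤ × ℤ, ((Complex.normSq (sf a b y k) : ℝ) : ℂ) *
        ((Real.exp (-(Real.pi / (t * dt a b ^ 2) * ‖lv a (-b) k‖ ^ 2)) : ℝ) : ℂ) := by
    rw [Complex.ofReal_tsum]
    refine tsum_congr fun k => ?_
    push_cast
    rfl
  push_cast at h19 h20 ⊢
  rw [h20, h19]
  field_simp

theorem tp {a b : ℂ} {y : Fin m → ℂ} (hY : Per m a b y) :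
    TP (cw a b y) (ce a b y) (dw a b y) (de a b) :=
  ⟨ok_ce hY, ok_de hY, fun _ ht => theta_eq hY ht⟩

end Pool.Agent.Helper28.RZL
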