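import Pool.Agent.Helper28.RZL.Hex

/-!
# Comparison with the hexagonal lattice
-/

set_option autoImplicit false

open MeasureTheory Set Filter Topology

namespace Pool.Agent.Helper28.RZL

open Pool.Agent.Helper42.RZ2 Pool.Agent.Helper39.RZ2

/-! ## Numerical bounds -/

theorem AA_gt : (362759 / 100000 : ℝ) ≤ AA := by
  have h1 : (314159 / 100000 : ℝ) < Real.pi := by
    have := Real.pi_gt_d6
    linarith
  have h2 : Real.sqrt 3 ≤ 17320509 / 10000000 := by
    rw [Real.sqrt_le_left (by norm_num)]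
    norm_num
  have h3 := s3
  rw [AA, le_div_iff₀ h3]
  nlinarith

theorem exp_AA : Real.exp (-AA) ≤ 265802 / 10000000 := by
  have h1 := Real.sum_le_exp_of_nonneg (x := 362759 / 100000) (by norm_num) 24
  have h2 : (10000000 / 265802 : ℝ) ≤ Real.exp (362759 / 100000) := by
    refine le_trans ?_ h1
    norm_num [Finset.sum_range_succ, Nat.factorial]
  have h3 : Real.exp (362759 / 100000) ≤ Real.exp AA := Real.exp_le_exp.2 AA_gt
  rw [Real.exp_neg, inv_le_comm₀ (Real.exp_pos _) (by norm_num)]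
  have h4 : (265802 / 10000000 : ℝ)⁻¹ = 10000000 / 265802 := by norm_num
  rw [h4]
  linarith

theorem rr_le : rr ≤ 4038 / 10000 := by
  by_contra h
  push Not at h
  have h1 : rr ^ 4 = Real.exp (-AA) := by
    rw [rr, ← Real.exp_nat_mul]
    congr 1
    push_cast
    ring
  have h2 : (4038 / 10000 : ℝ) ^ 4 < rr ^ 4 := pow_lt_pow_left₀ h (by norm_num) (by norm_num)
  rw [h1] at h2
  have := exp_AA
  norm_num at h2
  linarith

theorem S3_le : S3 ≤ 133 / 1000000 := by
  have h1 := exp_AA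
  have h2 : 0 < Real.exp (-AA) := Real.exp_pos _
  have h3 := rr_le
  have h4 : 0 < rr := Real.exp_pos _
  have h5 : (1 + rr) / (1 - rr) ≤ 14038 / 5962 := by
    rw [div_le_div_iff₀ (by linarith) (by norm_num)]
    linarith
  have h5' : 0 ≤ (1 + rr) / (1 - rr) := div_nonneg (by linarith) (by linarith)
  have h6 : Real.exp (-AA) ^ 3 ≤ (265802 / 10000000) ^ 3 := pow_le_pow_left₀ h2.le h1 3
  have h7 : Real.exp (-AA) ^ 4 ≤ (265802 / 10000000) ^ 4 := pow_le_pow_left₀ h2.le h1 4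
  have h8 : Real.exp (-AA) ^ 3 * rr ^ 2 * ((1 + rr) / (1 - rr) * ((1 + rr) / (1 - rr))) ≤
      (265802 / 10000000) ^ 3 * (4038 / 10000) ^ 2 * (14038 / 5962 * (14038 / 5962)) := by
    gcongr
  rw [S3]
  norm_num at h6 h7 h8 ⊢
  linarith

theorem S3_nonneg : 0 ≤ S3 := by
  have h3 := rr_le
  have h4 : 0 < rr := Real.exp_pos _
  have h5 : 0 ≤ (1 + rr) / (1 - rr) := div_nonneg (by linarith) (by linarith)
  unfold S3
  positivity

/-- the integral of the upper bound -/
noncomputable def Iu : ℝ := 6 * Real.exp (-AA) / AA + S3 / (3 * AA)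

theorem Iu_le : Iu ≤ 4397578 / 100000000 := by
  have h1 := exp_AA
  have h2 := AA_gt
  have h3 := S3_le
  have h4 := AA_pos
  have h5 : Iu = (6 * Real.exp (-AA) + S3 / 3) / AA := by
    rw [Iu]
    field_simp
  rw [h5, div_le_iff₀ h4]
  nlinarith

/-! ## Integrals -/

theorem up_prim (t : ℝ) : HasDerivAt (fun t => -(6 * Real.exp (-(AA * t)) / AA +
    S3 * Real.exp (-(3 * AA * (t - 1))) / (3 * AA))) (up t) t := by
  have hA := AA_pos
  have h1 : HasDerivAt (fun t => Real.exp (-(AA * t))) (Real.exp (-(AA * t)) * (-(AA * 1))) t :=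
    (((hasDerivAt_id t).const_mul AA).neg).exp
  have h2 : HasDerivAt (fun t => Real.exp (-(3 * AA * (t - 1))))
      (Real.exp (-(3 * AA * (t - 1))) * (-(3 * AA * 1))) t :=
    ((((hasDerivAt_id t).sub_const 1).const_mul (3 * AA)).neg).exp
  have h3 := (((h1.const_mul 6).div_const AA).add ((h2.const_mul S3).div_const (3 * AA))).neg
  refine h3.congr_deriv ?_
  rw [up]
  field_simp
  ring

theorem lim_exp {c : ℝ} (hc : 0 < c) : Tendsto (fun t : ℝ => Real.exp (-(c * t))) atTop (𝓝 0) := by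
  have h1 : Tendsto (fun t : ℝ => c * t) atTop atTop := tendsto_id.const_mul_atTop hc
  exact Real.tendsto_exp_neg_atTop_nhds_zero.comp h1

theorem up_lim : Tendsto (fun t => -(6 * Real.exp (-(AA * t)) / AA +
    S3 * Real.exp (-(3 * AA * (t - 1))) / (3 * AA))) atTop (𝓝 0) := by
  have hA := AA_pos
  have h1 := lim_exp hA
  have h2 : Tendsto (fun t : ℝ => Real.exp (-(3 * AA * (t - 1)))) atTop (𝓝 0) :=
    (lim_exp (show 0 < 3 * AA by positivity)).comp (tendsto_atTop_add_const_right _ (-1)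
      tendsto_id)
  have h3 := (((h1.const_mul 6).div_const AA).add ((h2.const_mul S3).div_const (3 * AA))).neg
  simpa using h3

theorem up_nonneg (t : ℝ) : 0 ≤ up t := by
  have := S3_nonneg
  unfold up
  positivity

theorem up_int : IntegrableOn up (Ioi 1) ∧ ∫ t in Ioi (1 : ℝ), up t = Iu := by
  constructor
  · exact integrableOn_Ioi_deriv_of_nonneg' (fun t _ => up_prim t) (fun t _ => up_nonneg t) up_lim
  · rw [integral_Ioi_of_hasDerivAt_of_nonneg' (fun t _ => up_prim t) (fun t _ => up_nonneg t)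
      up_lim]
    rw [Iu]
    simp

/-- the integral of the lower bound -/
noncomputable def Ib : ℝ := 328612410749693/2062413029282692 / (29/8) -
  34341848388443/16499304234261536 / (29/8) ^ 2

theorem be_prim (t : ℝ) : HasDerivAt (fun t => -(Real.exp (-((t - 1) * (29 / 8))) *
    (Ib - (t - 1) * (34341848388443/16499304234261536 / (29/8))))) (be t) t := by
  have h2 : HasDerivAt (fun t : ℝ => Real.exp (-((t - 1) * (29 / 8))))
      (Real.exp (-((t - 1) * (29 / 8))) * (-(1 * (29 / 8)))) t :=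
    ((((hasDerivAt_id t).sub_const 1).mul_const (29 / 8 : ℝ)).neg).exp
  have h3 : HasDerivAt (fun t : ℝ => Ib - (t - 1) * (34341848388443/16499304234261536 / (29/8)))
      (-(1 * (34341848388443/16499304234261536 / (29/8)))) t :=
    ((((hasDerivAt_id t).sub_const 1).mul_const _).const_sub _)
  have h4 := (h2.mul h3).neg
  refine h4.congr_deriv ?_
  rw [be, Ib]
  ring

theorem be_lim : Tendsto (fun t => -(Real.exp (-((t - 1) * (29 / 8))) *
    (Ib - (t - 1) * (34341848388443/16499304234261536 / (29/8))))) atTop (𝓝 0) := by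
  have h0 : Tendsto (fun t : ℝ => (t - 1) * (29 / 8)) atTop atTop :=
    (tendsto_atTop_add_const_right _ (-1) tendsto_id).atTop_mul_const (by norm_num)
  have h1 := (Real.tendsto_pow_mul_exp_neg_atTop_nhds_zero 0).comp h0
  have h2 := (Real.tendsto_pow_mul_exp_neg_atTop_nhds_zero 1).comp h0
  have h3 := ((h1.mul_const Ib).sub
    (h2.mul_const (34341848388443/16499304234261536 / (29/8) / (29 / 8)))).neg
  simp only [zero_mul, sub_zero, neg_zero] at h3
  refine h3.congr fun t => ?_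
  simp only [Function.comp_apply, pow_zero, pow_one, one_mul]
  ring

theorem gap_int : IntegrableOn (fun t => up t - be t) (Ioi 1) ∧
    ∫ t in Ioi (1 : ℝ), (up t - be t) = Iu - Ib := by
  have h1 : ∀ t ∈ Ici (1 : ℝ), HasDerivAt (fun t => -(6 * Real.exp (-(AA * t)) / AA +
    S3 * Real.exp (-(3 * AA * (t - 1))) / (3 * AA)) - -(Real.exp (-((t - 1) * (29 / 8))) *
    (Ib - (t - 1) * (34341848388443/16499304234261536 / (29/8))))) (up t - be t) t :=
    fun t _ => (up_prim t).sub (be_prim t)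
  have h2 : ∀ t ∈ Ioi (1 : ℝ), 0 ≤ up t - be t := by
    intro t ht
    have ht1 : 1 ≤ t := (mem_Ioi.1 ht).le
    have := be_le_th ht1
    have := th_le_up ht1
    linarith
  have h3 := up_lim.sub be_lim
  rw [sub_zero] at h3
  constructor
  · exact integrableOn_Ioi_deriv_of_nonneg' h1 h2 h3
  · rw [integral_Ioi_of_hasDerivAt_of_nonneg' h1 h2 h3, Iu]
    simp
    ring

theorem gap_le : 2 * (Iu - Ib) ≤ 36 / 100000 := by
  have h1 := Iu_le
  have h2 : (43795797 / 1000000000 : ℝ) ≤ Ib := by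
    rw [Ib]
    norm_num
  linarith

theorem wt_le {s t : ℝ} (h0 : 0 < s) (h2 : s < 2) (ht : 1 ≤ t) :
    t ^ (s / 2 - 1) ≤ 1 ∧ t ^ (-(s / 2)) ≤ 1 :=
  ⟨Real.rpow_le_one_of_one_le_of_nonpos ht (by linarith),
    Real.rpow_le_one_of_one_le_of_nonpos ht (by linarith)⟩

variable {ι κ : Type} {v l : ι → ℝ} {w' m' : κ → ℝ}

/-- the energy of the hexagonal lattice -/
noncomputable def EH (s : ℝ) : ℝ := En s (cw ha hb fun _ : Fin 1 => 0) (ce ha hb fun _ => 0)

/-- the integral of the theta function of the hexagonal lattice -/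
noncomputable def IH (s : ℝ) : ℝ := ∫ t in Ioi (1 : ℝ), (t ^ (s / 2 - 1) + t ^ (-(s / 2))) * th t

theorem hex_form {s : ℝ} (h0 : 0 < s) (h2 : s < 2) :
    EH s = Real.pi ^ (s / 2) / Real.Gamma (s / 2) * (-(4 / (s * (2 - s))) + IH s) := by
  rw [EH, form hexTP h0 h2, IH]
  congr 2
  refine setIntegral_congr_fun measurableSet_Ioi fun t ht => ?_
  have ht0 : 0 < t := lt_trans one_pos (mem_Ioi.1 ht)
  rw [hexX t ht0, hexY]
  ring

theorem IH_int {s : ℝ} (h0 : 0 < s) (h2 : s < 2) :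
    IntegrableOn (fun t => (t ^ (s / 2 - 1) + t ^ (-(s / 2))) * th t) (Ioi 1) := by
  refine ((X_int hexTP.ok1 (r := s / 2 - 1) (by linarith)).add
    (X_int hexTP.ok2 (r := -(s / 2)) (by linarith))).congr_fun (fun t ht => ?_) measurableSet_Ioi
  have ht0 : 0 < t := lt_trans one_pos (mem_Ioi.1 ht)
  simp only [Pi.add_apply]
  rw [hexX t ht0, hexY]
  ring

theorem th_nonneg (t : ℝ) : 0 ≤ th t := tsum_nonneg fun k => by positivity

theorem IH_nonneg (s : ℝ) : 0 ≤ IH s := by
  refine setIntegral_nonneg measurableSet_Ioi fun t ht => ?_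
  have ht0 : 0 < t := lt_trans one_pos (mem_Ioi.1 ht)
  have := th_nonneg t
  positivity

theorem IH_le {s : ℝ} (h0 : 0 < s) (h2 : s < 2) : IH s ≤ 88 / 1000 := by
  have h1 : IH s ≤ ∫ t in Ioi (1 : ℝ), 2 * up t := by
    refine setIntegral_mono_on (IH_int h0 h2) (up_int.1.const_mul 2) measurableSet_Ioi
      fun t ht => ?_
    have ht1 : 1 ≤ t := (mem_Ioi.1 ht).le
    have ht0 : 0 < t := by linarith
    obtain ⟨w1, w2⟩ := wt_le h0 h2 ht1
    have h3 := th_le_up ht1
    have h4 := th_nonneg t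
    have : 0 < t ^ (s / 2 - 1) := by positivity
    have : 0 < t ^ (-(s / 2)) := by positivity
    calc (t ^ (s / 2 - 1) + t ^ (-(s / 2))) * th t ≤ 2 * th t :=
          mul_le_mul_of_nonneg_right (by linarith) h4
      _ ≤ 2 * up t := by linarith
  rw [integral_const_mul, up_int.2] at h1
  have := Iu_le
  linarith

theorem int_cmp (h : TP v l w' m') {s : ℝ} (h0 : 0 < s) (h2 : s < 2) :
    IH s ≤ (∫ t in Ioi (1 : ℝ), (t ^ (s / 2 - 1) * Xs v l t + t ^ (-(s / 2)) * Xs w' m' t)) +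
      2 * (Iu - Ib) := by
  rw [← gap_int.2, ← integral_const_mul]
  have i1 := (X_int h.ok1 (r := s / 2 - 1) (by linarith)).add
    (X_int h.ok2 (r := -(s / 2)) (by linarith))
  have i2 := gap_int.1.const_mul 2
  have i1' : IntegrableOn (fun t : ℝ => t ^ (s / 2 - 1) * Xs v l t +
      t ^ (-(s / 2)) * Xs w' m' t) (Ioi 1) := i1
  rw [← integral_add i1' i2]
  refine setIntegral_mono_on (IH_int h0 h2) (i1'.add i2) measurableSet_Ioi fun t ht => ?_
  have ht1 : 1 ≤ t := (mem_Ioi.1 ht).le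
  have ht0 : 0 < t := by linarith
  obtain ⟨w1, w2⟩ := wt_le h0 h2 ht1
  have h3 := th_le_up ht1
  have h4 := be_le_th ht1
  have h5 := lower h ht1
  have h6 := lower h.symm ht1
  have p1 : 0 < t ^ (s / 2 - 1) := by positivity
  have p2 : 0 < t ^ (-(s / 2)) := by positivity
  have e1 : t ^ (s / 2 - 1) * be t ≤ t ^ (s / 2 - 1) * Xs v l t :=
    mul_le_mul_of_nonneg_left h5 p1.le
  have e2 : t ^ (-(s / 2)) * be t ≤ t ^ (-(s / 2)) * Xs w' m' t :=
    mul_le_mul_of_nonneg_left h6 p2.le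
  have e3 : (t ^ (s / 2 - 1) + t ^ (-(s / 2))) * (th t - be t) ≤ 2 * (up t - be t) := by
    calc (t ^ (s / 2 - 1) + t ^ (-(s / 2))) * (th t - be t) ≤ 2 * (th t - be t) :=
          mul_le_mul_of_nonneg_right (by linarith) (by linarith)
      _ ≤ 2 * (up t - be t) := by linarith
  nlinarith

theorem pref_pos {s : ℝ} (h0 : 0 < s) : 0 < Real.pi ^ (s / 2) / Real.Gamma (s / 2) := by
  have := Real.pi_pos
  have hG : 0 < Real.Gamma (s / 2) := Real.Gamma_pos_of_pos (by positivity)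
  positivity

theorem sig_pos {s : ℝ} (h0 : 0 < s) (h2 : s < 2) : 0 < s * (2 - s) := mul_pos h0 (by linarith)

theorem sig_le (s : ℝ) : s * (2 - s) ≤ 1 := by nlinarith [sq_nonneg (s - 1)]

theorem EH_neg {s : ℝ} (h0 : 0 < s) (h2 : s < 2) : EH s < 0 := by
  rw [hex_form h0 h2]
  refine mul_neg_of_pos_of_neg (pref_pos h0) ?_
  have h1 := IH_le h0 h2
  have h3 : 4 ≤ 4 / (s * (2 - s)) := by
    rw [le_div_iff₀ (sig_pos h0 h2)]
    linarith [sig_le s]
  linarith

/-- the comparison of the energies -/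
theorem cmp (h : TP v l w' m') {s : ℝ} (h0 : 0 < s) (h2 : s < 2) :
    (1 + s * (2 - s) / 10000) * EH s ≤ En s v l := by
  obtain ⟨σ, hσ⟩ : ∃ σ : ℝ, σ = s * (2 - s) := ⟨_, rfl⟩
  have hσ0 : 0 < σ := by rw [hσ]; exact sig_pos h0 h2
  have hσ1 : σ ≤ 1 := by rw [hσ]; exact sig_le s
  have h1 := IH_le h0 h2
  have h3 := IH_nonneg s
  have h4 := int_cmp h h0 h2
  have h5 := gap_le
  rw [hex_form h0 h2, form h h0 h2, ← hσ]
  obtain ⟨J, hJ⟩ : ∃ J, J = ∫ t in Ioi (1 : ℝ), (t ^ (s / 2 - 1) * Xs v l t +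
    t ^ (-(s / 2)) * Xs w' m' t) := ⟨_, rfl⟩
  rw [← hJ] at h4 ⊢
  have h6 : (1 + σ / 10000) * (-(4 / σ) + IH s) ≤ -(4 / σ) + J := by
    have h7 : (1 + σ / 10000) * (-(4 / σ) + IH s) =
        -(4 / σ) - 4 / 10000 + IH s + σ * IH s / 10000 := by
      field_simp
      ring
    rw [h7]
    have h8 : σ * IH s ≤ 88 / 1000 := by nlinarith
    linarith
  have h9 := mul_le_mul_of_nonneg_left h6 (pref_pos h0).le
  calc _ = Real.pi ^ (s / 2) / Real.Gamma (s / 2) * ((1 + σ / 10000) * (-(4 / σ) + IH s)) := by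
        ring
    _ ≤ _ := h9

end Pool.Agent.Helper28.RZL
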