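import Pool.Agent.Helper28.RZL.Lim

/-!
# The energy in terms of the theta functions on `[1, ∞)`
-/

set_option autoImplicit false

open MeasureTheory Set Filter Topology
open scoped ENNReal

namespace Pool.Agent.Helper28.RZL

variable {ι κ : Type} {v l : ι → ℝ} {w' m' : κ → ℝ}

/-- weighted integrals of the series over `[1, ∞)` -/
theorem X_int (h : Ok v l) {r : ℝ} (hr : r < 0) :
    IntegrableOn (fun t : ℝ => t ^ r * Xs v l t) (Ioi 1) := by
  obtain ⟨C, hC, hX⟩ := Xs_decay h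
  have h1 : IntegrableOn (fun t : ℝ => C * t ^ (r - 1)) (Ioi 1) :=
    (integrableOn_Ioi_rpow_of_lt (by linarith) one_pos).const_mul C
  have hc : ContinuousOn (fun t : ℝ => t ^ r * Xs v l t) (Ioi 1) := by
    refine ContinuousOn.mul ?_ ((Xs_continuousOn h).mono fun t ht =>
      mem_Ioi.2 (lt_trans one_pos (mem_Ioi.1 ht)))
    exact continuousOn_id.rpow_const fun t ht => Or.inl (lt_trans one_pos (mem_Ioi.1 ht)).ne'
  refine h1.mono' (hc.aestronglyMeasurable measurableSet_Ioi) ?_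
  filter_upwards [ae_restrict_mem measurableSet_Ioi] with t ht
  have ht1 : 1 < t := ht
  have ht0 : 0 < t := by linarith
  have h2 := Xs_nonneg h t
  rw [Real.norm_of_nonneg (by positivity), Real.rpow_sub_one ht0.ne', mul_div_assoc',
    le_div_iff₀ ht0]
  have h3 := hX t ht1.le
  have h4 : 0 ≤ t ^ r := by positivity
  nlinarith

theorem subst_inv (g : ℝ → ℝ) :
    ∫ u in Ioc (0 : ℝ) 1, u ^ (-2 : ℝ) * g u⁻¹ = ∫ t in Ioi (1 : ℝ), g t := by
  have h1 := integral_comp_rpow_Ioi ((Ioi (1 : ℝ)).indicator g) (p := -1) (by norm_num)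
  have h2 : ∫ y in Ioi (0 : ℝ), (Ioi (1 : ℝ)).indicator g y = ∫ t in Ioi (1 : ℝ), g t := by
    rw [integral_indicator measurableSet_Ioi, Measure.restrict_restrict measurableSet_Ioi]
    congr 2
    ext y
    simp only [mem_inter_iff, mem_Ioi]
    exact ⟨fun h => h.1, fun h => ⟨h, lt_trans one_pos h⟩⟩
  have h3 : ∫ x in Ioi (0 : ℝ), (|(-1 : ℝ)| * x ^ (-1 - 1 : ℝ)) •
      (Ioi (1 : ℝ)).indicator g (x ^ (-1 : ℝ)) =
      ∫ x in Ioi (0 : ℝ), (Ioo (0 : ℝ) 1).indicator (fun u => u ^ (-2 : ℝ) * g u⁻¹) x := by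
    refine setIntegral_congr_fun measurableSet_Ioi fun x hx => ?_
    have hx0 : 0 < x := hx
    simp only [abs_neg, abs_one, one_mul, smul_eq_mul]
    rw [Real.rpow_neg_one]
    by_cases h4 : x < 1
    · rw [indicator_of_mem (show x ∈ Ioo (0 : ℝ) 1 from ⟨hx0, h4⟩), indicator_of_mem]
      · norm_num
      · exact mem_Ioi.2 ((one_lt_inv₀ hx0).2 h4)
    · rw [indicator_of_notMem (fun h : x ∈ Ioo (0 : ℝ) 1 => h4 h.2), indicator_of_notMem,
        mul_zero]
      intro h5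
      exact h4 ((one_lt_inv₀ hx0).1 h5)
  rw [h3, h2, integral_indicator measurableSet_Ioo, Measure.restrict_restrict measurableSet_Ioo]
    at h1
  rw [← h1, integral_Ioc_eq_integral_Ioo]
  congr 2
  ext y
  simp only [mem_inter_iff, mem_Ioi, mem_Ioo]
  exact ⟨fun h => ⟨h, h.1⟩, fun h => h.1⟩

theorem form (h : TP v l w' m') {s : ℝ} (h0 : 0 < s) (h2 : s < 2) :
    En s v l = Real.pi ^ (s / 2) / Real.Gamma (s / 2) * (-(4 / (s * (2 - s))) +
      ∫ t in Ioi (1 : ℝ), (t ^ (s / 2 - 1) * Xs v l t + t ^ (-(s / 2)) * Xs w' m' t)) := by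
  have hG : 0 < Real.Gamma (s / 2) := Real.Gamma_pos_of_pos (by positivity)
  have hpi := Real.pi_pos
  obtain ⟨c, hc⟩ : ∃ c : ℝ, c = Real.pi ^ (s / 2) / Real.Gamma (s / 2) := ⟨_, rfl⟩
  have hc0 : 0 < c := by rw [hc]; positivity
  have h2s : 0 < 2 - s := by linarith
  -- as an integral over the half line
  have e1 : En s v l = ∫ u in Ioi (0 : ℝ), c * (u ^ (s / 2 - 1) * Ds v l u) := by
    rw [En, m2, integral_withDensity_eq_integral_toReal_smul (m2_meas s)
      (ae_of_all _ fun _ => ENNReal.ofReal_lt_top)]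
    refine setIntegral_congr_fun measurableSet_Ioi fun u hu => ?_
    have hu0 : 0 < u := hu
    rw [← hc, ENNReal.toReal_ofReal (by positivity), smul_eq_mul, mul_assoc]
  -- the part on (1, ∞)
  have i1 := X_int h.ok1 (r := s / 2 - 1) (by linarith)
  have i2 := X_int h.ok2 (r := -(s / 2)) (by linarith)
  have i3 : IntegrableOn (fun u : ℝ => u ^ (s / 2 - 2)) (Ioi 1) :=
    integrableOn_Ioi_rpow_of_lt (by linarith) one_pos
  have e2 : ∀ u ∈ Ioi (1 : ℝ), u ^ (s / 2 - 1) * Ds v l u =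
      u ^ (s / 2 - 1) * Xs v l u - u ^ (s / 2 - 2) := by
    intro u hu
    have hu0 : 0 < u := lt_trans one_pos (mem_Ioi.1 hu)
    have h6 : u ^ (s / 2 - 2) = u ^ (s / 2 - 1) * (1 / u) := by
      rw [show s / 2 - 2 = (s / 2 - 1) - 1 by ring, Real.rpow_sub hu0 (s / 2 - 1) 1,
        Real.rpow_one, div_eq_mul_one_div]
    rw [Ds, h6]
    ring
  have i4 : IntegrableOn (fun u => u ^ (s / 2 - 1) * Ds v l u) (Ioi 1) :=
    (i1.sub i3).congr_fun (fun u hu => (e2 u hu).symm) measurableSet_Ioi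
  have e3 : ∫ u in Ioi (1 : ℝ), u ^ (s / 2 - 1) * Ds v l u =
      (∫ u in Ioi (1 : ℝ), u ^ (s / 2 - 1) * Xs v l u) - 2 / (2 - s) := by
    rw [setIntegral_congr_fun measurableSet_Ioi e2, integral_sub i1 i3,
      integral_Ioi_rpow_of_lt (by linarith) one_pos, Real.one_rpow]
    congr 1
    rw [div_eq_div_iff (by linarith) h2s.ne']
    ring
  -- the part on (0, 1]
  have e4 : ∀ u ∈ Ioc (0 : ℝ) 1, u ^ (s / 2 - 1) * Ds v l u =
      u ^ (-2 : ℝ) * ((u⁻¹) ^ (-(s / 2)) * Xs w' m' u⁻¹) - u ^ (s / 2 - 1) := by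
    intro u hu
    have hu0 : 0 < u := hu.1
    rw [Ds_small h hu0, one_div, Real.inv_rpow hu0.le, Real.rpow_neg hu0.le (s / 2), inv_inv]
    have h6 : u ^ (s / 2 - 1) * u⁻¹ = u ^ (-2 : ℝ) * u ^ (s / 2) := by
      rw [← Real.rpow_neg_one, ← Real.rpow_add hu0, ← Real.rpow_add hu0]
      congr 1
      ring
    rw [mul_sub, mul_one, ← mul_assoc, h6, mul_assoc]
  have i5 : IntegrableOn (fun u : ℝ => u ^ (s / 2 - 1)) (Ioc 0 1) :=
    (intervalIntegrable_iff_integrableOn_Ioc_of_le zero_le_one).1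
      (intervalIntegral.intervalIntegrable_rpow' (by linarith))
  obtain ⟨C, hC, hD⟩ := Ds_bound h
  have i6 : IntegrableOn (fun u => u ^ (s / 2 - 1) * Ds v l u) (Ioc 0 1) := by
    refine (i5.const_mul C).mono' ?_ ?_
    · refine ContinuousOn.aestronglyMeasurable ?_ measurableSet_Ioc
      refine ContinuousOn.mul ?_ ((Ds_continuousOn h.ok1).mono fun t ht => ht.1)
      exact continuousOn_id.rpow_const fun t ht => Or.inl ht.1.ne'
    · filter_upwards [ae_restrict_mem measurableSet_Ioc] with u hu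
      have hu0 : 0 < u := hu.1
      have h7 := hD u hu0
      have h8 : 1 / (1 + u) ≤ 1 := by
        rw [div_le_one (by positivity)]
        linarith
      have h9 : |Ds v l u| ≤ C := h7.trans (mul_le_of_le_one_right hC h8)
      have h10 : 0 ≤ u ^ (s / 2 - 1) := by positivity
      rw [norm_mul, Real.norm_of_nonneg h10, Real.norm_eq_abs, mul_comm]
      exact mul_le_mul_of_nonneg_right h9 h10
  have i7 : IntegrableOn (fun u : ℝ => u ^ (-2 : ℝ) * ((u⁻¹) ^ (-(s / 2)) * Xs w' m' u⁻¹))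
      (Ioc 0 1) := by
    refine (i6.add i5).congr_fun (fun u hu => ?_) measurableSet_Ioc
    simp only [Pi.add_apply]
    rw [e4 u hu, sub_add_cancel]
  have e5 : ∫ u in Ioc (0 : ℝ) 1, u ^ (s / 2 - 1) * Ds v l u =
      (∫ t in Ioi (1 : ℝ), t ^ (-(s / 2)) * Xs w' m' t) - 2 / s := by
    rw [setIntegral_congr_fun measurableSet_Ioc e4, integral_sub i7 i5,
      subst_inv (fun t => t ^ (-(s / 2)) * Xs w' m' t)]
    congr 1
    rw [← intervalIntegral.integral_of_le zero_le_one, integral_rpow (Or.inl (by linarith))]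
    rw [Real.one_rpow, Real.zero_rpow (by linarith), show s / 2 - 1 + 1 = s / 2 by ring]
    field_simp
    norm_num
  -- assembly
  have h5 : Ioi (0 : ℝ) = Ioc 0 1 ∪ Ioi 1 := (Ioc_union_Ioi_eq_Ioi zero_le_one).symm
  rw [e1, integral_const_mul, ← hc, h5, setIntegral_union Ioc_disjoint_Ioi_same
    measurableSet_Ioi i6 i4, e5, e3, integral_add i1 i2]
  congr 1
  field_simp
  ring

end Pool.Agent.Helper28.RZL
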