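import Pool.Agent.Helper28.RZL.Ser

/-!
# The linear programming bound for theta pairs, degree 7

For a theta pair and `t ≥ 1` both series are at least
`exp (-(29/8) (t - 1)) (bU - (t - 1) bV)`.
-/

set_option autoImplicit false

open Filter Topology Set Polynomial

namespace Pool.Agent.Helper28.RZL

variable {ι κ : Type} {v l : ι → ℝ} {w m : κ → ℝ}

/-- polynomial of degree at most 7 -/
noncomputable def pol (a b c d e f g h : ℝ) : ℝ[X] :=
  C a + C b * X + C c * X ^ 2 + C d * X ^ 3 + C e * X ^ 4 + C f * X ^ 5 + C g * X ^ 6 + C h * X ^ 7

theorem pol_eval (a b c d e f g h y : ℝ) : (pol a b c d e f g h).eval y =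
    a + b * y + c * y ^ 2 + d * y ^ 3 + e * y ^ 4 + f * y ^ 5 + g * y ^ 6 + h * y ^ 7 := by
  simp [pol]

theorem pol_der_eval (a b c d e f g h y : ℝ) : (derivative (pol a b c d e f g h)).eval y =
    b + 2 * c * y + 3 * d * y ^ 2 + 4 * e * y ^ 3 + 5 * f * y ^ 4 + 6 * g * y ^ 5 +
      7 * h * y ^ 6 := by
  simp [pol]
  ring

theorem Dop_pol (a b c d e f g : ℝ) : Dop (pol a b c d e f g 0) =
    pol (a / 2) (3 / 2 * b - a) (5 / 2 * c - b) (7 / 2 * d - c) (9 / 2 * e - d) (11 / 2 * f - e)
      (13 / 2 * g - f) (-g) := by
  refine Polynomial.funext fun y => ?_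
  rw [Dop, Eop, eval_add, eval_mul, eval_sub, eval_mul, eval_mul, eval_C, eval_X, pol_der_eval,
    pol_eval, pol_eval]
  ring

theorem neg_pol (a b c d e f g h : ℝ) :
    -pol a b c d e f g h = pol (-a) (-b) (-c) (-d) (-e) (-f) (-g) (-h) := by
  refine Polynomial.funext fun y => ?_
  rw [eval_neg, pol_eval, pol_eval]
  ring

theorem C_mul_pol (x a b c d e f g h : ℝ) :
    C x * pol a b c d e f g h =
      pol (x * a) (x * b) (x * c) (x * d) (x * e) (x * f) (x * g) (x * h) := by
  refine Polynomial.funext fun y => ?_
  rw [eval_mul, eval_C, pol_eval, pol_eval]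
  ring

theorem pol_add (a b c d e f g h a' b' c' d' e' f' g' h' : ℝ) :
    pol a b c d e f g h + pol a' b' c' d' e' f' g' h' =
      pol (a + a') (b + b') (c + c') (d + d') (e + e') (f + f') (g + g') (h + h') := by
  refine Polynomial.funext fun y => ?_
  rw [eval_add, pol_eval, pol_eval, pol_eval]
  ring

theorem Du0 (H : TP v l w m) : Du v l w m (pol 1 0 0 0 0 0 0 0)
    (pol 1 0 0 0 0 0 0 0) := by
  have h : (pol 1 0 0 0 0 0 0 0 : ℝ[X]) = 1 := by
    refine Polynomial.funext fun y => ?_
    rw [pol_eval, eval_one]
    ring
  rw [h]
  exact Du_one H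

theorem Du1 (H : TP v l w m) : Du v l w m (pol (1 / 2) (-1) 0 0 0 0 0 0)
    (pol (-1 / 2) 1 0 0 0 0 0 0) := by
  have h := Du_Dop H (Du0 H)
  simp only [Dop_pol, neg_pol] at h
  norm_num at h ⊢
  exact h

theorem Du2 (H : TP v l w m) : Du v l w m (pol (1 / 4) (-2) 1 0 0 0 0 0)
    (pol (1 / 4) (-2) 1 0 0 0 0 0) := by
  have h := Du_Dop H (Du1 H)
  simp only [Dop_pol, neg_pol] at h
  norm_num at h ⊢
  exact h

theorem Du3 (H : TP v l w m) : Du v l w m (pol (1 / 8) (-13 / 4) (9 / 2) (-1) 0 0 0 0)
    (pol (-1 / 8) (13 / 4) (-9 / 2) 1 0 0 0 0) := by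
  have h := Du_Dop H (Du2 H)
  simp only [Dop_pol, neg_pol] at h
  norm_num at h ⊢
  exact h

theorem Du4 (H : TP v l w m) : Du v l w m (pol (1 / 16) (-5) (29 / 2) (-8) 1 0 0 0)
    (pol (1 / 16) (-5) (29 / 2) (-8) 1 0 0 0) := by
  have h := Du_Dop H (Du3 H)
  simp only [Dop_pol, neg_pol] at h
  norm_num at h ⊢
  exact h

theorem Du5 (H : TP v l w m) : Du v l w m (pol (1 / 32) (-121 / 16) (165 / 4) (-85 / 2) (25 / 2) (-1) 0 0)
    (pol (-1 / 32) (121 / 16) (-165 / 4) (85 / 2) (-25 / 2) 1 0 0) := by
  have h := Du_Dop H (Du4 H)
  simp only [Dop_pol, neg_pol] at h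
  norm_num at h ⊢
  exact h

theorem Du6 (H : TP v l w m) : Du v l w m (pol (1 / 64) (-91 / 8) (1771 / 16) (-190) (395 / 4) (-18) 1 0)
    (pol (1 / 64) (-91 / 8) (1771 / 16) (-190) (395 / 4) (-18) 1 0) := by
  have h := Du_Dop H (Du5 H)
  simp only [Dop_pol, neg_pol] at h
  norm_num at h ⊢
  exact h

theorem Du7 (H : TP v l w m) : Du v l w m (pol (1 / 128) (-1093 / 64) (9219 / 32) (-12411 / 16) (5075 / 8) (-791 / 4) (49 / 2) (-1))
    (pol (-1 / 128) (1093 / 64) (-9219 / 32) (12411 / 16) (-5075 / 8) (791 / 4) (-49 / 2) 1) := by
  have h := Du_Dop H (Du6 H)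
  simp only [Dop_pol, neg_pol] at h
  norm_num at h ⊢
  exact h

/-- first pair -/
theorem DuU (H : TP v l w m) : Du v l w m
    (pol (1733800618532999 / 4124826058565384) (257540307712289 / 2062413029282692) (48604672091493 / 1031206514641346) (-4162851437437 / 515603257320673) (737348472000 / 515603257320673) (-539577419136 / 515603257320673) (80098256896 / 515603257320673) (-3269316608 / 515603257320673))
    (pol (2391025440032385 / 4124826058565384) (-257540307712289 / 2062413029282692) (-48604672091493 / 1031206514641346) (4162851437437 / 515603257320673) (-737348472000 / 515603257320673) (539577419136 / 515603257320673) (-80098256896 / 515603257320673) (3269316608 / 515603257320673)) := by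
  have h := Du_add H (Du_C_mul (1 / 2 : ℝ) (Du0 H))
    (Du_add H (Du_C_mul (-167378644231053 / 1031206514641346) (Du1 H))
    (Du_add H (Du_C_mul (6171405865149 / 515603257320673) (Du3 H))
    (Du_add H (Du_C_mul (-106929940096 / 515603257320673) (Du5 H))
      (Du_C_mul (3269316608 / 515603257320673) (Du7 H)))))
  simp only [C_mul_pol, pol_add] at h
  norm_num at h ⊢
  exact h

/-- second pair -/
theorem DuV (H : TP v l w m) : Du v l w m
    (pol (-322348379029715397529562671 / 565090831988406329812342336) (-18557431852475827704810241 / 282545415994203164906171168) (-9880815733892996716614093 / 141272707997101582453085584) (2180467116287973693937421 / 70636353998550791226542792) (-38633548247968246575064 / 8829544249818848903317849) (27183653898323043049392 / 8829544249818848903317849) (-4192449824335995737344 / 8829544249818848903317849) (10216614400 / 515603257320673))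
    (pol (-321172192240120536919846953 / 565090831988406329812342336) (-80587993569550649355178559 / 282545415994203164906171168) (31736173383852608155011357 / 141272707997101582453085584) (-1383909218655543539791629 / 70636353998550791226542792) (40284336635214581774936 / 8829544249818848903317849) (-30566935227383776575408 / 8829544249818848903317849) (4380409898172703155456 / 8829544249818848903317849) (-10216614400 / 515603257320673)) := by
  have h := Du_add H (Du_C_mul (-162164118293 / 273994987408) (Du0 H))
    (Du_add H (Du_C_mul (59640047210941 / 8249652117130768) (Du1 H))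
    (Du_add H (Du_C_mul (3084452821 / 34249373426) (Du2 H))
    (Du_add H (Du_C_mul (-154285146628725 / 4124826058565384) (Du3 H))
    (Du_add H (Du_C_mul (-16398528 / 17124686713) (Du4 H))
    (Du_add H (Du_C_mul (334156062800 / 515603257320673) (Du5 H))
    (Du_add H (Du_C_mul (182272 / 17124686713) (Du6 H))
      (Du_C_mul (-10216614400 / 515603257320673) (Du7 H))))))))
  simp only [C_mul_pol, pol_add] at h
  norm_num at h ⊢
  exact h

/-- the double zeros -/
noncomputable def bs (y : ℝ) : ℝ := (y - 29 / 8) ^ 2 * (y - 23 / 2) ^ 2

theorem bs_nonneg (y : ℝ) : 0 ≤ bs y := by unfold bs; positivity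

theorem U_eval (y : ℝ) :
    (pol (1733800618532999 / 4124826058565384) (257540307712289 / 2062413029282692) (48604672091493 / 1031206514641346) (-4162851437437 / 515603257320673) (737348472000 / 515603257320673) (-539577419136 / 515603257320673) (80098256896 / 515603257320673) (-3269316608 / 515603257320673)).eval y =
    1 - bs y * ((171981806880 / 515603257320673) + (87747647296 / 515603257320673) * y + (18798570496 / 515603257320673) * y ^ 2 + (3269316608 / 515603257320673) * y ^ 3) := by
  rw [pol_eval, bs]
  ring

theorem R_eval (y : ℝ) :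
    (pol (2391025440032385 / 4124826058565384) (-257540307712289 / 2062413029282692) (-48604672091493 / 1031206514641346) (4162851437437 / 515603257320673) (-737348472000 / 515603257320673) (539577419136 / 515603257320673) (-80098256896 / 515603257320673) (3269316608 / 515603257320673)).eval y =
    bs y * ((171981806880 / 515603257320673) + (87747647296 / 515603257320673) * y + (18798570496 / 515603257320673) * y ^ 2 + (3269316608 / 515603257320673) * y ^ 3) := by
  rw [pol_eval, bs]
  ring

theorem V_eval (y : ℝ) :
    (pol (-322348379029715397529562671 / 565090831988406329812342336) (-18557431852475827704810241 / 282545415994203164906171168) (-9880815733892996716614093 / 141272707997101582453085584) (2180467116287973693937421 / 70636353998550791226542792) (-38633548247968246575064 / 8829544249818848903317849) (27183653898323043049392 / 8829544249818848903317849) (-4192449824335995737344 / 8829544249818848903317849) (10216614400 / 515603257320673)).eval y =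
    (y - 29 / 8) + bs y * ((15519429672824075650692 / 8829544249818848903317849) + (5847039732708650367336 / 8829544249818848903317849) * y + (1099978881906619395456 / 8829544249818848903317849) * y ^ 2 + (10216614400 / 515603257320673) * y ^ 3) := by
  rw [pol_eval, bs]
  ring

theorem Z_eval (y : ℝ) :
    (pol (-321172192240120536919846953 / 565090831988406329812342336) (-80587993569550649355178559 / 282545415994203164906171168) (31736173383852608155011357 / 141272707997101582453085584) (-1383909218655543539791629 / 70636353998550791226542792) (40284336635214581774936 / 8829544249818848903317849) (-30566935227383776575408 / 8829544249818848903317849) (4380409898172703155456 / 8829544249818848903317849) (-10216614400 / 515603257320673)).eval y =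
    -(bs y * ((2887661346898849258308 / 8829544249818848903317849) + (3544528828208984495464 / 8829544249818848903317849) * y + (912018808069911977344 / 8829544249818848903317849) * y ^ 2 + (10216614400 / 515603257320673) * y ^ 3)) := by
  rw [pol_eval, bs]
  ring

/-- the lower bound -/
noncomputable def be (t : ℝ) : ℝ := Real.exp (-((t - 1) * (29 / 8))) *
  ((328612410749693 / 2062413029282692) - (t - 1) * (34341848388443 / 16499304234261536))

theorem lower (H : TP v l w m) {t : ℝ} (ht : 1 ≤ t) : be t ≤ Xs v l t := by
  set c : ℝ := Real.exp (-((t - 1) * (29 / 8))) with hc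
  have hc0 : 0 < c := Real.exp_pos _
  have h1 := Du_add H (Du_C_mul c (DuU H)) (Du_C_mul (-(c * (t - 1))) (DuV H))
  have h2 := lp H h1 (by linarith : 0 < t) ?_ ?_
  · refine le_trans (le_of_eq ?_) h2
    rw [be, ← hc]
    simp only [eval_add, eval_mul, eval_C, pol_eval]
    ring
  · intro y hy
    rw [eval_add, eval_mul, eval_C, U_eval, eval_mul, eval_C, V_eval]
    have h3 : Real.exp (-((t - 1) * y)) = c * Real.exp (-((t - 1) * (y - 29 / 8))) := by
      rw [hc, ← Real.exp_add]
      ring_nf
    rw [h3]
    have h4 := Real.add_one_le_exp (-((t - 1) * (y - 29 / 8)))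
    have h5 : 0 ≤ bs y * ((171981806880 / 515603257320673) + (87747647296 / 515603257320673) * y + (18798570496 / 515603257320673) * y ^ 2 + (3269316608 / 515603257320673) * y ^ 3) := mul_nonneg (bs_nonneg y) (by positivity)
    have h6 : 0 ≤ (t - 1) * (bs y * ((15519429672824075650692 / 8829544249818848903317849) + (5847039732708650367336 / 8829544249818848903317849) * y + (1099978881906619395456 / 8829544249818848903317849) * y ^ 2 + (10216614400 / 515603257320673) * y ^ 3)) :=
      mul_nonneg (by linarith) (mul_nonneg (bs_nonneg y) (by positivity))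
    have h7 := mul_le_mul_of_nonneg_left (show
      (1 - bs y * ((171981806880 / 515603257320673) + (87747647296 / 515603257320673) * y + (18798570496 / 515603257320673) * y ^ 2 + (3269316608 / 515603257320673) * y ^ 3)) - (t - 1) *
        ((y - 29 / 8) + bs y * ((15519429672824075650692 / 8829544249818848903317849) + (5847039732708650367336 / 8829544249818848903317849) * y + (1099978881906619395456 / 8829544249818848903317849) * y ^ 2 + (10216614400 / 515603257320673) * y ^ 3)) ≤
        Real.exp (-((t - 1) * (y - 29 / 8))) by linarith) hc0.le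
    linarith
  · intro y hy
    rw [eval_add, eval_mul, eval_C, R_eval, eval_mul, eval_C, Z_eval]
    have h5 : 0 ≤ bs y * ((171981806880 / 515603257320673) + (87747647296 / 515603257320673) * y + (18798570496 / 515603257320673) * y ^ 2 + (3269316608 / 515603257320673) * y ^ 3) := mul_nonneg (bs_nonneg y) (by positivity)
    have h6 : 0 ≤ bs y * ((2887661346898849258308 / 8829544249818848903317849) + (3544528828208984495464 / 8829544249818848903317849) * y + (912018808069911977344 / 8829544249818848903317849) * y ^ 2 + (10216614400 / 515603257320673) * y ^ 3) := mul_nonneg (bs_nonneg y) (by positivity)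
    have h7 : 0 ≤ c * (t - 1) := mul_nonneg hc0.le (by linarith)
    nlinarith [mul_nonneg hc0.le h5, mul_nonneg h7 h6]

end Pool.Agent.Helper28.RZL
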