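import Pool.Agent.Helper28.RZL.Form
import Pool.Agent.Helper28.RZL.LP

/-!
# The hexagonal lattice
-/

set_option autoImplicit false

open MeasureTheory Set Filter Topology

namespace Pool.Agent.Helper28.RZL

open Pool.Agent.Helper42.RZ2 Pool.Agent.Helper39.RZ2

/-- the quadratic form of the hexagonal lattice -/
def qf (k : ℤ × ℤ) : ℤ := k.1 ^ 2 + k.1 * k.2 + k.2 ^ 2

/-- the first exponent -/
noncomputable def AA : ℝ := 2 * Real.pi / Real.sqrt 3

/-- the theta function of the hexagonal lattice, without the constant term -/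
noncomputable def th (t : ℝ) : ℝ :=
  ∑' k : ℤ × ℤ, if k = 0 then 0 else Real.exp (-(t * (AA * qf k)))

/-- the length of the shortest vector -/
noncomputable def hg : ℝ := Real.sqrt (2 / Real.sqrt 3)

/-- the first vector -/
noncomputable def ha : ℂ := ⟨hg, 0⟩

/-- the second vector -/
noncomputable def hb : ℂ := ⟨hg / 2, hg * (Real.sqrt 3 / 2)⟩

theorem s3 : 0 < Real.sqrt 3 := by positivity

theorem s3sq : Real.sqrt 3 ^ 2 = 3 := Real.sq_sqrt (by norm_num)

theorem hg_sq : hg ^ 2 = 2 / Real.sqrt 3 := Real.sq_sqrt (by positivity)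

theorem hdt : dt ha hb = 1 := by
  have h1 := hg_sq
  have h2 := s3
  have h3 : dt ha hb = hg ^ 2 * (Real.sqrt 3 / 2) := by
    simp only [dt, ha, hb]
    ring
  rw [h3, h1]
  field_simp

theorem hex_norm (k : ℤ × ℤ) : Real.pi * ‖lv ha hb k‖ ^ 2 = AA * qf k := by
  have h1 := hg_sq
  have h2 := s3
  have h4 := s3sq
  have h3 : ‖lv ha hb k‖ ^ 2 = hg ^ 2 * ((k.1 + k.2 / 2) ^ 2 + k.2 ^ 2 * Real.sqrt 3 ^ 2 / 4) := by
    rw [norm_sq_eq]
    simp only [lv, ha, hb, Complex.add_re, Complex.add_im, Complex.mul_re, Complex.mul_im,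
      Complex.intCast_re, Complex.intCast_im]
    ring
  rw [h3, h1, h4, AA, qf]
  push_cast
  field_simp
  ring

theorem hex_norm' (k : ℤ × ℤ) : Real.pi * ‖lv ha (-hb) k‖ ^ 2 = AA * qf (k.1, -k.2) := by
  rw [← hex_norm]
  congr 3
  simp [lv]

theorem hex_per : Per 1 ha hb (fun _ => 0) := by
  refine ⟨le_rfl, ?_, fun i j k _ => Subsingleton.elim i j⟩
  rw [hdt]
  simp

theorem hexX (t : ℝ) (ht : 0 < t) : Xs (cw ha hb fun _ : Fin 1 => 0) (ce ha hb fun _ => 0) t =
    th t := by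
  rw [Xs, tsum_ix ((ok_ce hex_per).sm t ht), th]
  simp only [Finset.univ_unique, Finset.sum_singleton]
  refine tsum_congr fun k => ?_
  have h1 := pt_eq_zero hex_per ((default : Fin 1), (default : Fin 1), k)
  simp only [true_and] at h1
  rw [cw]
  by_cases hk : k = 0
  · rw [if_pos (h1.2 hk), if_pos hk, zero_mul]
  · rw [if_neg (fun h => hk (h1.1 h)), if_neg hk]
    simp only [Nat.cast_one, inv_one, one_mul]
    rw [ce, pt, sub_self, zero_add, hex_norm]

theorem hexY (t : ℝ) : Xs (dw ha hb fun _ : Fin 1 => 0) (de ha hb) t = th t := by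
  rw [Xs, th]
  let e : ℤ × ℤ ≃ ℤ × ℤ := (Equiv.refl ℤ).prodCongr (Equiv.neg ℤ)
  rw [← e.tsum_eq (fun k : ℤ × ℤ => if k = 0 then 0 else Real.exp (-(t * (AA * qf k))))]
  refine tsum_congr fun k => ?_
  have he : e k = (k.1, -k.2) := rfl
  have h1 : e k = 0 ↔ k = 0 := by
    rw [he, Prod.ext_iff, Prod.ext_iff]
    simp
  rw [dw]
  by_cases hk : k = 0
  · rw [if_pos hk, if_pos (h1.2 hk), zero_mul]
  · rw [if_neg hk, if_neg (fun h => hk (h1.1 h)), de, hdt, he]
    have h2 : sf ha hb (fun _ : Fin 1 => 0) k = 1 := by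
      simp [sf, ang, dt]
    rw [h2, map_one, one_mul, ← hex_norm', one_pow, div_one]

theorem hexTP : TP (cw ha hb fun _ : Fin 1 => 0) (ce ha hb fun _ => 0)
    (dw ha hb fun _ : Fin 1 => 0) (de ha hb) := tp hex_per

theorem be_le_th {t : ℝ} (ht : 1 ≤ t) : be t ≤ th t := by
  rw [← hexX t (by linarith)]
  exact lower hexTP ht

/-! ## Upper bound of the theta function -/

/-- the first shell -/
def F1 : Finset (ℤ × ℤ) := {(1, 0), (-1, 0), (0, 1), (0, -1), (1, -1), (-1, 1)}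

/-- the second shell -/
def F3 : Finset (ℤ × ℤ) := {(1, 1), (-1, -1), (2, -1), (-2, 1), (1, -2), (-1, 2)}

/-- the third shell -/
def F4 : Finset (ℤ × ℤ) := {(2, 0), (-2, 0), (0, 2), (0, -2), (2, -2), (-2, 2)}

theorem shells (k : ℤ × ℤ) : k = 0 ∨ k ∈ F1 ∨ k ∈ F3 ∨ k ∈ F4 ∨ 7 ≤ qf k := by
  by_cases h : k.1 ∈ Finset.Icc (-2 : ℤ) 2 ∧ k.2 ∈ Finset.Icc (-2 : ℤ) 2
  · have h1 : ∀ x ∈ Finset.Icc (-2 : ℤ) 2, ∀ y ∈ Finset.Icc (-2 : ℤ) 2,
        ((x, y) : ℤ × ℤ) = 0 ∨ (x, y) ∈ F1 ∨ (x, y) ∈ F3 ∨ (x, y) ∈ F4 ∨ 7 ≤ qf (x, y) := by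
      decide
    exact h1 _ h.1 _ h.2
  · right; right; right; right
    have h3 : 3 ≤ |k.1| ∨ 3 ≤ |k.2| := by
      simp only [Finset.mem_Icc] at h
      by_contra h4
      push Not at h4
      have h5 := abs_lt.1 h4.1
      have h6 := abs_lt.1 h4.2
      exact h ⟨⟨by omega, by omega⟩, ⟨by omega, by omega⟩⟩
    have h7 : 27 ≤ 4 * qf k := by
      rcases h3 with h3 | h3
      · have h8 : 9 ≤ k.1 ^ 2 := by
          rw [← sq_abs]
          nlinarith
        have : 4 * qf k = (2 * k.2 + k.1) ^ 2 + 3 * k.1 ^ 2 := by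
          rw [qf]
          ring
        nlinarith [sq_nonneg (2 * k.2 + k.1)]
      · have h8 : 9 ≤ k.2 ^ 2 := by
          rw [← sq_abs]
          nlinarith
        have : 4 * qf k = (2 * k.1 + k.2) ^ 2 + 3 * k.2 ^ 2 := by
          rw [qf]
          ring
        nlinarith [sq_nonneg (2 * k.1 + k.2)]
    omega

theorem qf1 : ∀ k ∈ F1, qf k = 1 := by decide

theorem qf3 : ∀ k ∈ F3, qf k = 3 := by decide

theorem qf4 : ∀ k ∈ F4, qf k = 4 := by decide

theorem qf_lower (k : ℤ × ℤ) : k.1.natAbs + k.2.natAbs ≤ 2 * (qf k) := by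
  have h1 : ∀ n : ℤ, (n.natAbs : ℤ) ≤ n ^ 2 := by
    intro n
    rw [← Int.natAbs_sq]
    have : n.natAbs ≤ n.natAbs ^ 2 := Nat.le_self_pow (by norm_num) _
    exact_mod_cast this
  have h2 := h1 k.1
  have h3 := h1 k.2
  have h4 : 2 * qf k = k.1 ^ 2 + k.2 ^ 2 + (k.1 + k.2) ^ 2 := by
    rw [qf]
    ring
  nlinarith [sq_nonneg (k.1 + k.2)]

theorem AA_pos : 0 < AA := by
  have := Real.pi_pos
  unfold AA
  positivity

theorem hasSum_F (F : Finset (ℤ × ℤ)) (c : ℝ) :
    HasSum (fun k => if k ∈ F then c else 0) (F.card * c) := by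
  have h : HasSum (fun k => if k ∈ F then c else 0) (∑ k ∈ F, (if k ∈ F then c else 0)) :=
    hasSum_sum_of_ne_finset_zero (fun k hk => if_neg hk)
  have h2 : ∑ k ∈ F, (if k ∈ F then c else 0) = F.card * c := by
    rw [Finset.sum_congr rfl (fun k hk => if_pos hk), Finset.sum_const, nsmul_eq_mul]
  rwa [h2] at h

theorem hasSum_geo {r : ℝ} (h0 : 0 ≤ r) (h1 : r < 1) :
    HasSum (fun n : ℤ => r ^ n.natAbs) ((1 + r) / (1 - r)) := by
  have h2 := hasSum_geometric_of_lt_one h0 h1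
  have h3 := h2.mul_left r
  have h4 : HasSum (fun n : ℤ => r ^ n.natAbs) ((1 - r)⁻¹ + r * (1 - r)⁻¹) := by
    refine HasSum.of_nat_of_neg_add_one ?_ ?_
    · simpa using h2
    · refine h3.congr_fun fun n => ?_
      have : (-((n : ℤ) + 1)).natAbs = n + 1 := by omega
      rw [this, pow_succ]
      ring
  have h5 : (1 - r)⁻¹ + r * (1 - r)⁻¹ = (1 + r) / (1 - r) := by
    field_simp
  rwa [h5] at h4

theorem hasSum_geo2 {r : ℝ} (h0 : 0 ≤ r) (h1 : r < 1) :
    HasSum (fun k : ℤ × ℤ => r ^ k.1.natAbs * r ^ k.2.natAbs)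
      ((1 + r) / (1 - r) * ((1 + r) / (1 - r))) := by
  have h2 := hasSum_geo h0 h1
  refine h2.mul h2 ?_
  exact h2.summable.mul_of_nonneg h2.summable (fun n => by positivity) (fun n => by positivity)

/-- the ratio of the tail -/
noncomputable def rr : ℝ := Real.exp (-(AA / 4))

/-- the sum over the shells after the first -/
noncomputable def S3 : ℝ := 6 * Real.exp (-AA) ^ 3 + 6 * Real.exp (-AA) ^ 4 +
  Real.exp (-AA) ^ 3 * rr ^ 2 * ((1 + rr) / (1 - rr) * ((1 + rr) / (1 - rr)))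

/-- upper bound of the theta function -/
noncomputable def up (t : ℝ) : ℝ := 6 * Real.exp (-(AA * t)) + S3 * Real.exp (-(3 * AA * (t - 1)))

theorem th_le_up {t : ℝ} (ht : 1 ≤ t) : th t ≤ up t := by
  have hA := AA_pos
  have hr0 : 0 < rr := Real.exp_pos _
  have hr1 : rr < 1 := by
    have := Real.exp_lt_exp.2 (show -(AA / 4) < 0 by linarith)
    rwa [Real.exp_zero] at this
  obtain ⟨w, hw⟩ : ∃ w : ℝ, w = Real.exp (-(3 * AA * (t - 1))) := ⟨_, rfl⟩
  have hw0 : 0 < w := by rw [hw]; exact Real.exp_pos _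
  have h1 : HasSum (fun k : ℤ × ℤ => (if k ∈ F1 then Real.exp (-(AA * t)) else 0) +
      w * (((if k ∈ F3 then Real.exp (-AA) ^ 3 else 0) +
        (if k ∈ F4 then Real.exp (-AA) ^ 4 else 0)) +
        Real.exp (-AA) ^ 3 * rr ^ 2 * (rr ^ k.1.natAbs * rr ^ k.2.natAbs)))
      (F1.card * Real.exp (-(AA * t)) + w * ((F3.card * Real.exp (-AA) ^ 3 +
        F4.card * Real.exp (-AA) ^ 4) + Real.exp (-AA) ^ 3 * rr ^ 2 *
        ((1 + rr) / (1 - rr) * ((1 + rr) / (1 - rr))))) :=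
    (hasSum_F _ _).add ((((hasSum_F _ _).add (hasSum_F _ _)).add
      ((hasSum_geo2 hr0.le hr1).mul_left _)).mul_left w)
  have h2 : F1.card * Real.exp (-(AA * t)) + w * ((F3.card * Real.exp (-AA) ^ 3 +
        F4.card * Real.exp (-AA) ^ 4) + Real.exp (-AA) ^ 3 * rr ^ 2 *
        ((1 + rr) / (1 - rr) * ((1 + rr) / (1 - rr)))) = up t := by
    have e1 : F1.card = 6 := by decide
    have e3 : F3.card = 6 := by decide
    have e4 : F4.card = 6 := by decide
    rw [e1, e3, e4, up, S3, hw]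
    push_cast
    ring
  rw [h2] at h1
  rw [← h1.tsum_eq, th]
  have h3 : ∀ k : ℤ × ℤ, (if k = 0 then 0 else Real.exp (-(t * (AA * qf k)))) ≤
      (if k ∈ F1 then Real.exp (-(AA * t)) else 0) +
      w * (((if k ∈ F3 then Real.exp (-AA) ^ 3 else 0) +
        (if k ∈ F4 then Real.exp (-AA) ^ 4 else 0)) +
        Real.exp (-AA) ^ 3 * rr ^ 2 * (rr ^ k.1.natAbs * rr ^ k.2.natAbs)) := by
    intro k
    have n1 : 0 ≤ (if k ∈ F1 then Real.exp (-(AA * t)) else 0) := by positivity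
    have n3 : 0 ≤ (if k ∈ F3 then Real.exp (-AA) ^ 3 else 0) := by positivity
    have n4 : 0 ≤ (if k ∈ F4 then Real.exp (-AA) ^ 4 else 0) := by positivity
    have n5 : 0 ≤ Real.exp (-AA) ^ 3 * rr ^ 2 * (rr ^ k.1.natAbs * rr ^ k.2.natAbs) := by
      positivity
    rcases shells k with h | h | h | h | h
    · rw [if_pos h]
      positivity
    · by_cases hk : k = 0
      · rw [if_pos hk]
        positivity
      rw [if_neg hk, if_pos h, qf1 k h]
      have : 0 ≤ w * (((if k ∈ F3 then Real.exp (-AA) ^ 3 else 0) +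
        (if k ∈ F4 then Real.exp (-AA) ^ 4 else 0)) +
        Real.exp (-AA) ^ 3 * rr ^ 2 * (rr ^ k.1.natAbs * rr ^ k.2.natAbs)) := by positivity
      have e : -(t * (AA * ((1 : ℤ) : ℝ))) = -(AA * t) := by
        push_cast
        ring
      rw [e]
      linarith
    · by_cases hk : k = 0
      · rw [if_pos hk]
        positivity
      rw [if_neg hk, if_pos h, qf3 k h]
      have e : Real.exp (-(t * (AA * ((3 : ℤ) : ℝ)))) = w * Real.exp (-AA) ^ 3 := by
        rw [hw, ← Real.exp_nat_mul, ← Real.exp_add]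
        congr 1
        push_cast
        ring
      rw [e]
      have : w * Real.exp (-AA) ^ 3 ≤ w * ((Real.exp (-AA) ^ 3 +
        (if k ∈ F4 then Real.exp (-AA) ^ 4 else 0)) +
        Real.exp (-AA) ^ 3 * rr ^ 2 * (rr ^ k.1.natAbs * rr ^ k.2.natAbs)) :=
        mul_le_mul_of_nonneg_left (by linarith) hw0.le
      linarith
    · by_cases hk : k = 0
      · rw [if_pos hk]
        positivity
      rw [if_neg hk, if_pos h, qf4 k h]
      have e : Real.exp (-(t * (AA * ((4 : ℤ) : ℝ)))) ≤ w * Real.exp (-AA) ^ 4 := by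
        rw [hw, ← Real.exp_nat_mul, ← Real.exp_add]
        refine Real.exp_le_exp.2 ?_
        push_cast
        nlinarith
      have : w * Real.exp (-AA) ^ 4 ≤ w * (((if k ∈ F3 then Real.exp (-AA) ^ 3 else 0) +
        Real.exp (-AA) ^ 4) +
        Real.exp (-AA) ^ 3 * rr ^ 2 * (rr ^ k.1.natAbs * rr ^ k.2.natAbs)) :=
        mul_le_mul_of_nonneg_left (by linarith) hw0.le
      linarith
    · by_cases hk : k = 0
      · rw [if_pos hk]
        positivity
      rw [if_neg hk]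
      have hQ : (7 : ℝ) ≤ qf k := by exact_mod_cast h
      have hL : ((k.1.natAbs : ℝ) + k.2.natAbs) ≤ 2 * qf k := by
        have h9 : (((k.1.natAbs : ℤ) + (k.2.natAbs : ℤ) : ℤ) : ℝ) ≤ ((2 * qf k : ℤ) : ℝ) :=
          Int.cast_le.2 (qf_lower k)
        simpa only [Int.cast_add, Int.cast_natCast, Int.cast_mul, Int.cast_ofNat] using h9
      have e : Real.exp (-(t * (AA * qf k))) ≤
          w * (Real.exp (-AA) ^ 3 * rr ^ 2 * (rr ^ k.1.natAbs * rr ^ k.2.natAbs)) := by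
        rw [hw, rr, ← Real.exp_nat_mul, ← Real.exp_nat_mul, ← Real.exp_nat_mul,
          ← Real.exp_nat_mul, ← Real.exp_add, ← Real.exp_add, ← Real.exp_add, ← Real.exp_add]
        refine Real.exp_le_exp.2 ?_
        push_cast
        have e1 : AA * ((k.1.natAbs : ℝ) + k.2.natAbs) ≤ AA * (2 * qf k) :=
          mul_le_mul_of_nonneg_left hL hA.le
        have e2 : 0 ≤ AA * ((t - 1) * (qf k - 3)) := by
          have : 0 ≤ (t - 1) * ((qf k : ℝ) - 3) := mul_nonneg (by linarith) (by linarith)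
          positivity
        have e3 : 0 ≤ AA * ((qf k : ℝ) - 7) := mul_nonneg hA.le (by linarith)
        nlinarith
      have : w * (Real.exp (-AA) ^ 3 * rr ^ 2 * (rr ^ k.1.natAbs * rr ^ k.2.natAbs)) ≤
          w * (((if k ∈ F3 then Real.exp (-AA) ^ 3 else 0) +
          (if k ∈ F4 then Real.exp (-AA) ^ 4 else 0)) +
          Real.exp (-AA) ^ 3 * rr ^ 2 * (rr ^ k.1.natAbs * rr ^ k.2.natAbs)) :=
        mul_le_mul_of_nonneg_left (by linarith) hw0.le
      linarith
  refine Summable.tsum_le_tsum h3 ?_ h1.summable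
  refine Summable.of_nonneg_of_le (fun k => ?_) h3 h1.summable
  positivity

end Pool.Agent.Helper28.RZL
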