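import Pool.Agent.Helper28.RZL.Sub
import Pool.Agent.Helper28.RZL.Cfg

/-!
# The energy of a periodic configuration as an integral over its theta function
-/

set_option autoImplicit false

open MeasureTheory Set Filter Topology
open scoped ENNReal

namespace Pool.Agent.Helper28.RZL

open Pool.Agent.Helper42.RZ Pool.Agent.Helper42.RZ2 Pool.Agent.Helper39.RZ2

instance (s : ℝ) : SFinite (kap s) := by
  unfold kap
  infer_instance

theorem ae_kap (s : ℝ) : ∀ᵐ p ∂(kap s), 0 < p.1 ∧ 0 < p.2 := by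
  have h1 : ∀ᵐ x ∂m1, 0 < x := by
    have : m1 ≪ volume.restrict (Ioi (0 : ℝ)) := withDensity_absolutelyContinuous _ _
    exact this.ae_le (ae_restrict_mem measurableSet_Ioi)
  have h2 : ∀ᵐ x ∂(m2 s), 0 < x := by
    have : m2 s ≪ volume.restrict (Ioi (0 : ℝ)) := withDensity_absolutelyContinuous _ _
    exact this.ae_le (ae_restrict_mem measurableSet_Ioi)
  have h3 := (Measure.quasiMeasurePreserving_fst (μ := m1) (ν := m2 s)).ae h1
  have h4 := (Measure.quasiMeasurePreserving_snd (μ := m1) (ν := m2 s)).ae h2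
  exact h3.and h4

theorem tw_pos {w : ℝ} {p : ℝ × ℝ} (hp : 0 < p.2) : 0 < tw w p := by
  have hpi := Real.pi_pos
  unfold tw
  positivity

theorem tw_ge {w : ℝ} (p : ℝ × ℝ) : p.2 ≤ tw w p := by
  have hpi := Real.pi_pos
  unfold tw
  have : 0 ≤ w ^ 2 / (4 * Real.pi * p.1 ^ 2) := by positivity
  linarith

theorem lint_plane {T : ℝ} (hT : 0 < T) :
    ∫⁻ z : ℂ, ENNReal.ofReal (Real.exp (-(T * (Real.pi * ‖z‖ ^ 2)))) = ENNReal.ofReal (1 / T) := by
  have hpi := Real.pi_pos
  have h1 := GaussianFourier.integral_rexp_neg_mul_sq_norm (V := ℂ) (b := T * Real.pi)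
    (by positivity)
  have h2 : (Real.pi / (T * Real.pi)) ^ (Module.finrank ℝ ℂ / 2 : ℝ) = 1 / T := by
    rw [Complex.finrank_real_complex]
    norm_num
    field_simp
  rw [h2] at h1
  have h3 : Integrable fun z : ℂ => Real.exp (-(T * Real.pi) * ‖z‖ ^ 2) := by
    by_contra h
    rw [integral_undef h] at h1
    have : 0 < 1 / T := by positivity
    linarith
  rw [← h1, ofReal_integral_eq_lintegral_ofReal h3 (ae_of_all _ fun z => (Real.exp_pos _).le)]
  refine lintegral_congr fun z => ?_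
  congr 2
  ring

/-- the background -/
theorem background {s w : ℝ} (h0 : 0 < s) (h2 : s < 2) (hw : 0 < w) :
    ∫⁻ p, ENNReal.ofReal (1 / tw w p) ∂(kap s) = ENNReal.ofReal (bk s w) := by
  have hm : Measurable (Function.uncurry fun (z : ℂ) (p : ℝ × ℝ) =>
      ENNReal.ofReal (Real.exp (-(tw w p * (Real.pi * ‖z‖ ^ 2))))) := by
    have := measurable_tw w
    unfold Function.uncurry
    fun_prop
  have h1 : ∫⁻ z : ℂ, ENNReal.ofReal (ph s w ‖z‖) = ENNReal.ofReal (bk s w) := by
    rw [← integral_ph h2 hw, ofReal_integral_eq_lintegral_ofReal (integrable_ph h2 hw)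
      (ae_of_all _ fun z => ph_nonneg (norm_nonneg z))]
  rw [← h1]
  have h3 : ∫⁻ z : ℂ, ENNReal.ofReal (ph s w ‖z‖) = ∫⁻ z : ℂ, ∫⁻ p,
      ENNReal.ofReal (Real.exp (-(tw w p * (Real.pi * ‖z‖ ^ 2)))) ∂(kap s) := by
    refine lintegral_congr_ae ?_
    have h4 : ∀ᵐ z : ℂ, z ≠ 0 := by
      simp [ae_iff]
    filter_upwards [h4] with z hz
    exact (mix h0 hw.le (norm_pos_iff.2 hz)).symm
  rw [h3, lintegral_lintegral_swap hm.aemeasurable]
  refine lintegral_congr_ae ?_
  filter_upwards [ae_kap s] with p hp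
  exact (lint_plane (tw_pos hp.2)).symm

theorem bk_nonneg {s w : ℝ} (h2 : s < 2) (hw : 0 < w) : 0 ≤ bk s w := by
  have hpi := Real.pi_pos
  have hG : 0 < Real.Gamma (2 - s) := Real.Gamma_pos_of_pos (by linarith)
  unfold bk
  positivity

theorem background_int {s w : ℝ} (h0 : 0 < s) (h2 : s < 2) (hw : 0 < w) :
    Integrable (fun p => 1 / tw w p) (kap s) ∧ ∫ p, 1 / tw w p ∂(kap s) = bk s w := by
  have h1 := background h0 h2 hw
  have hm : Measurable fun p => 1 / tw w p := by
    have := measurable_tw w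
    fun_prop
  have hnn : 0 ≤ᵐ[kap s] fun p => 1 / tw w p := by
    filter_upwards [ae_kap s] with p hp
    have := tw_pos (w := w) hp.2
    positivity
  constructor
  · refine ⟨hm.aestronglyMeasurable, ?_⟩
    rw [hasFiniteIntegral_iff_ofReal hnn, h1]
    exact ENNReal.ofReal_lt_top
  · rw [integral_eq_lintegral_of_nonneg_ae hnn hm.aestronglyMeasurable, h1,
      ENNReal.toReal_ofReal (bk_nonneg h2 hw)]

/-! ## The series -/

theorem Xs_exp_eq {ι : Type} (v l : ι → ℝ) (x : ℝ) : Xs v l (Real.exp x) = Zs v l 1 x :=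
  (Zs_one x).symm

theorem Xs_continuousOn {ι : Type} {v l : ι → ℝ} (h : Ok v l) : ContinuousOn (Xs v l) (Ioi 0) := by
  intro t ht
  have ht0 : 0 < t := ht
  have h1 : ContinuousAt (fun t => Zs v l 1 (Real.log t)) t :=
    (Zs_hasDerivAt h 1 (Real.log t)).continuousAt.comp (Real.continuousAt_log ht0.ne')
  have h2 : Xs v l =ᶠ[𝓝 t] fun t => Zs v l 1 (Real.log t) := by
    filter_upwards [Ioi_mem_nhds ht0] with u hu
    rw [← Xs_exp_eq, Real.exp_log hu]
  exact (h1.congr h2.symm).continuousWithinAt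

/-- the difference of the theta function and its background -/
noncomputable def Ds {ι : Type} (v l : ι → ℝ) (t : ℝ) : ℝ := Xs v l t - 1 / t

theorem Ds_continuousOn {ι : Type} {v l : ι → ℝ} (h : Ok v l) : ContinuousOn (Ds v l) (Ioi 0) := by
  refine (Xs_continuousOn h).sub ?_
  exact continuousOn_const.div continuousOn_id fun t ht => (mem_Ioi.1 ht).ne'

variable {ι κ : Type} {v l : ι → ℝ} {w' m' : κ → ℝ}

theorem Ds_small (h : TP v l w' m') {t : ℝ} (ht : 0 < t) :
    Ds v l t = 1 / t * Xs w' m' (1 / t) - 1 := by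
  have h1 := h.eq t ht
  have h2 : Xs w' m' (1 / t) = t * (1 + Xs v l t) - 1 := by linarith
  rw [Ds, h2]
  field_simp
  ring

theorem Ds_bound (h : TP v l w' m') : ∃ C : ℝ, 0 ≤ C ∧ ∀ t : ℝ, 0 < t →
    |Ds v l t| ≤ C * (1 / (1 + t)) := by
  obtain ⟨C1, hC1, h1⟩ := Xs_decay h.ok1
  obtain ⟨C2, hC2, h2⟩ := Xs_decay h.ok2
  refine ⟨2 * (C1 + C2 + 1), by positivity, fun t ht => ?_⟩
  rw [mul_one_div, le_div_iff₀ (by positivity)]
  rcases le_total 1 t with h3 | h3
  · have h4 := h1 t h3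
    have h5 := Xs_nonneg h.ok1 t
    have h6 : |Ds v l t| * t ≤ C1 + 1 := by
      have h7 : |Ds v l t| ≤ Xs v l t + 1 / t := by
        rw [Ds]
        refine (abs_sub _ _).trans ?_
        rw [abs_of_nonneg h5, abs_of_pos (by positivity)]
      calc |Ds v l t| * t ≤ (Xs v l t + 1 / t) * t := by gcongr
        _ = t * Xs v l t + 1 := by field_simp
        _ ≤ C1 + 1 := by linarith
    have h8 : |Ds v l t| ≤ |Ds v l t| * t := le_mul_of_one_le_right (abs_nonneg _) h3
    linarith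
  · have h9 : 1 ≤ 1 / t := by rw [le_div_iff₀ ht]; linarith
    have h4 := h2 (1 / t) h9
    have h5 := Xs_nonneg h.ok2 (1 / t)
    have h6 : |Ds v l t| ≤ C2 + 1 := by
      rw [Ds_small h ht]
      refine (abs_sub _ _).trans ?_
      rw [abs_of_nonneg (by positivity), abs_one]
      linarith
    have h8 : |Ds v l t| * (1 + t) ≤ |Ds v l t| * 2 :=
      mul_le_mul_of_nonneg_left (by linarith) (abs_nonneg _)
    linarith

/-- integrability of the majorant -/
theorem maj_int {s : ℝ} (h0 : 0 < s) (h2 : s < 2) :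
    Integrable (fun u : ℝ => 1 / (1 + u)) (m2 s) := by
  have hG : 0 < Real.Gamma (s / 2) := Real.Gamma_pos_of_pos (by positivity)
  have hpi := Real.pi_pos
  rw [m2, integrable_withDensity_iff_integrable_smul' (m2_meas s)
    (ae_of_all _ fun _ => ENNReal.ofReal_lt_top)]
  have h3 : IntegrableOn (fun u : ℝ => Real.pi ^ (s / 2) / Real.Gamma (s / 2) * u ^ (s / 2 - 1))
      (Ioc 0 1) := by
    have := (intervalIntegral.intervalIntegrable_rpow' (a := 0) (b := 1) (r := s / 2 - 1)
      (by linarith)).const_mul (Real.pi ^ (s / 2) / Real.Gamma (s / 2))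
    exact (intervalIntegrable_iff_integrableOn_Ioc_of_le zero_le_one).1 this
  have h4 : IntegrableOn (fun u : ℝ => Real.pi ^ (s / 2) / Real.Gamma (s / 2) * u ^ (s / 2 - 2))
      (Ioi 1) :=
    (integrableOn_Ioi_rpow_of_lt (by linarith) one_pos).const_mul _
  have h5 : Ioi (0 : ℝ) = Ioc 0 1 ∪ Ioi 1 := (Ioc_union_Ioi_eq_Ioi zero_le_one).symm
  have hm : Measurable fun u : ℝ => (ENNReal.ofReal (Real.pi ^ (s / 2) / Real.Gamma (s / 2) *
      u ^ (s / 2 - 1))).toReal • (1 / (1 + u)) := by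
    fun_prop
  change IntegrableOn _ (Ioi (0 : ℝ)) volume
  rw [h5]
  refine IntegrableOn.union ?_ ?_
  · refine h3.mono' hm.aestronglyMeasurable ?_
    filter_upwards [ae_restrict_mem measurableSet_Ioc] with u hu
    have hu0 : 0 < u := hu.1
    rw [ENNReal.toReal_ofReal (by positivity), smul_eq_mul, Real.norm_of_nonneg (by positivity)]
    refine mul_le_of_le_one_right (by positivity) ?_
    rw [div_le_one (by positivity)]
    linarith
  · refine h4.mono' hm.aestronglyMeasurable ?_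
    filter_upwards [ae_restrict_mem measurableSet_Ioi] with u hu
    have hu0 : 0 < u := lt_trans one_pos hu
    have h6 : u ^ (s / 2 - 2) = u ^ (s / 2 - 1) * (1 / u) := by
      rw [show s / 2 - 2 = (s / 2 - 1) - 1 by ring, Real.rpow_sub hu0 (s / 2 - 1) 1,
        Real.rpow_one, div_eq_mul_one_div]
    rw [ENNReal.toReal_ofReal (by positivity), smul_eq_mul, Real.norm_of_nonneg (by positivity),
      h6, mul_assoc]
    refine mul_le_mul_of_nonneg_left ?_ (by positivity)
    refine mul_le_mul_of_nonneg_left ?_ (by positivity)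
    exact one_div_le_one_div_of_le hu0 (by linarith)

theorem maj_kap {s : ℝ} (h0 : 0 < s) (h2 : s < 2) :
    Integrable (fun p : ℝ × ℝ => 1 / (1 + p.2)) (kap s) := by
  have h1 := (maj_int h0 h2).comp_snd m1
  exact h1

theorem Ds_tw_aesm (h : Ok v l) (s : ℝ) (w : ℝ) :
    AEStronglyMeasurable (fun p => Ds v l (tw w p)) (kap s) := by
  classical
  have h1 : Measurable ((Ioi (0 : ℝ)).piecewise (Ds v l) (fun _ => 0)) :=
    (Ds_continuousOn h).measurable_piecewise continuousOn_const measurableSet_Ioi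
  refine (h1.comp (measurable_tw w)).aestronglyMeasurable.congr ?_
  filter_upwards [ae_kap s] with p hp
  rw [Function.comp_apply, piecewise_eq_of_mem _ _ _ (mem_Ioi.2 (tw_pos hp.2))]

theorem Ds_tw_bound {C : ℝ} (hC : 0 ≤ C) (hD : ∀ t : ℝ, 0 < t → |Ds v l t| ≤ C * (1 / (1 + t)))
    (s w : ℝ) : ∀ᵐ p ∂(kap s), ‖Ds v l (tw w p)‖ ≤ C * (1 / (1 + p.2)) := by
  filter_upwards [ae_kap s] with p hp
  rw [Real.norm_eq_abs]
  refine (hD _ (tw_pos hp.2)).trans (mul_le_mul_of_nonneg_left ?_ hC)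
  refine one_div_le_one_div_of_le (by linarith [hp.2]) ?_
  linarith [tw_ge (w := w) p]

theorem Ds_tw_int (h : TP v l w' m') {s : ℝ} (h0 : 0 < s) (h2 : s < 2) (w : ℝ) :
    Integrable (fun p => Ds v l (tw w p)) (kap s) := by
  obtain ⟨C, hC, hD⟩ := Ds_bound h
  exact ((maj_kap h0 h2).const_mul C).mono' (Ds_tw_aesm h.ok1 s w) (Ds_tw_bound hC hD s w)

/-- the energy -/
noncomputable def En (s : ℝ) {ι : Type} (v l : ι → ℝ) : ℝ := ∫ u, Ds v l u ∂(m2 s)

theorem lim_Ds (h : TP v l w' m') {s : ℝ} (h0 : 0 < s) (h2 : s < 2) :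
    Tendsto (fun w => ∫ p, Ds v l (tw w p) ∂(kap s)) (𝓝[>] 0) (𝓝 (En s v l)) := by
  obtain ⟨C, hC, hD⟩ := Ds_bound h
  have h3 : En s v l = ∫ p : ℝ × ℝ, Ds v l p.2 ∂(kap s) := by
    rw [kap, integral_fun_snd (fun u => Ds v l u), En]
    simp
  rw [h3]
  refine tendsto_integral_filter_of_dominated_convergence (fun p => C * (1 / (1 + p.2))) ?_ ?_
    ((maj_kap h0 h2).const_mul C) ?_
  · exact Eventually.of_forall fun w => Ds_tw_aesm h.ok1 s w
  · exact Eventually.of_forall fun w => Ds_tw_bound hC hD s w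
  · filter_upwards [ae_kap s] with p hp
    have h4 : Tendsto (fun w => tw w p) (𝓝[>] 0) (𝓝 p.2) := by
      have h5 : Continuous fun w : ℝ => p.2 + w ^ 2 / (4 * Real.pi * p.1 ^ 2) := by fun_prop
      have h6 := h5.tendsto 0
      simp only [ne_eq, OfNat.ofNat_ne_zero, not_false_eq_true, zero_pow, zero_div,
        add_zero] at h6
      exact h6.mono_left nhdsWithin_le_nhds
    have h7 : ContinuousAt (Ds v l) p.2 :=
      (Ds_continuousOn h.ok1).continuousAt (Ioi_mem_nhds hp.2)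
    exact h7.tendsto.comp h4

/-! ## Periodic configurations -/

variable {m : ℕ}

theorem AS_eq_int {s w : ℝ} (h0 : 0 < s) (h2 : s < 2) (hw : 0 < w) {a b : ℂ} {y : Fin m → ℂ}
    (hY : Per m a b y) : AS s w a b y = ∫ p, Ds (cw a b y) (ce a b y) (tw w p) ∂(kap s) := by
  have hd := per_dt hY
  have hpi := Real.pi_pos
  -- termwise
  have hterm : ∀ i : Ix m, Integrable (fun p => cw a b y i *
      Real.exp (-(tw w p * ce a b y i))) (kap s) ∧
      ∫ p, cw a b y i * Real.exp (-(tw w p * ce a b y i)) ∂(kap s) =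
        (m : ℝ)⁻¹ * ph s w ‖pt a b y i‖ := by
    intro i
    by_cases hi : pt a b y i = 0
    · have h3 : cw a b y i = 0 := by
        unfold cw
        rw [if_pos hi]
      rw [h3, hi, norm_zero, ph_zero h0]
      simp
    · have h3 : cw a b y i = (m : ℝ)⁻¹ := by
        unfold cw
        rw [if_neg hi]
      obtain ⟨h4, h5⟩ := mix_int h0 hw.le (norm_pos_iff.2 hi)
      rw [h3]
      exact ⟨h4.const_mul _, by rw [integral_const_mul]; congr 1⟩
  have hsum : Summable fun i : Ix m => (m : ℝ)⁻¹ * ph s w ‖pt a b y i‖ := by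
    refine Summable.mul_left _ (summable_ix (fun i => ph_nonneg (norm_nonneg _)) fun i j => ?_)
    exact summable_ph h0 hw hd (y i - y j)
  have hnorm : Summable fun i : Ix m => ∫ p, ‖cw a b y i *
      Real.exp (-(tw w p * ce a b y i))‖ ∂(kap s) := by
    refine hsum.congr fun i => ?_
    rw [← (hterm i).2]
    refine integral_congr_ae (ae_of_all _ fun p => ?_)
    exact (Real.norm_of_nonneg (mul_nonneg ((ok_ce hY).v0 i) (Real.exp_pos _).le)).symm
  have h6 := hasSum_integral_of_summable_integral_norm (fun i => (hterm i).1) hnorm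
  have h7 : ∫ p, Xs (cw a b y) (ce a b y) (tw w p) ∂(kap s) =
      ∑' i : Ix m, (m : ℝ)⁻¹ * ph s w ‖pt a b y i‖ := by
    have h8 := h6.tsum_eq
    simp only [(hterm _).2] at h8
    rw [h8]
    rfl
  obtain ⟨hb1, hb2⟩ := background_int h0 h2 hw
  have hDi := Ds_tw_int (tp hY) h0 h2 w
  have h9 : ∫ p, Xs (cw a b y) (ce a b y) (tw w p) ∂(kap s) =
      ∫ p, Ds (cw a b y) (ce a b y) (tw w p) ∂(kap s) + bk s w := by
    rw [← hb2, ← integral_add hDi hb1]
    refine integral_congr_ae (ae_of_all _ fun p => ?_)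
    simp only [Ds]
    ring
  have h10 : ∑' i : Ix m, (m : ℝ)⁻¹ * ph s w ‖pt a b y i‖ =
      (m : ℝ)⁻¹ * ∑ i, ∑ j, LS s w a b (y i - y j) := by
    have hs : Summable fun i : Ix m => ph s w ‖pt a b y i‖ :=
      summable_ix (fun i => ph_nonneg (norm_nonneg _)) fun i j => summable_ph h0 hw hd (y i - y j)
    rw [tsum_mul_left, tsum_ix hs]
    congr 1
  rw [AS, ← h10, ← h7, h9, add_sub_cancel_right]

/-- every periodic configuration has an energy, the integral of its theta function -/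
theorem AS_lim {s : ℝ} (h0 : 0 < s) (h2 : s < 2) {a b : ℂ} {y : Fin m → ℂ} (hY : Per m a b y) :
    Tendsto (fun w => AS s w a b y) (𝓝[>] 0) (𝓝 (En s (cw a b y) (ce a b y))) := by
  refine (lim_Ds (tp hY) h0 h2).congr' ?_
  filter_upwards [self_mem_nhdsWithin] with w hw
  exact (AS_eq_int h0 h2 hw hY).symm

end Pool.Agent.Helper28.RZL
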