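import Mathlib

/-!
# Exponential series with nonnegative coefficients

`Xs v l t = ∑' i, v i exp (-(t l i))`; a theta pair is a pair of such series linked by the
functional equation `t (1 + X t) = 1 + Y (1 / t)`.
-/

set_option autoImplicit false

open Filter Topology Set Polynomial

namespace Pool.Agent.Helper28.RZL

/-- exponential series -/
noncomputable def Xs {ι : Type} (v l : ι → ℝ) (t : ℝ) : ℝ := ∑' i, v i * Real.exp (-(t * l i))

/-- conditions on the coefficients and exponents -/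
structure Ok {ι : Type} (v l : ι → ℝ) : Prop where
  v0 : ∀ i, 0 ≤ v i
  l0 : ∀ i, 0 ≤ l i
  gap : ∃ ρ : ℝ, 0 < ρ ∧ ∀ i, v i ≠ 0 → ρ ≤ l i
  sm : ∀ t : ℝ, 0 < t → Summable fun i => v i * Real.exp (-(t * l i))

/-- a theta pair -/
structure TP {ι κ : Type} (v l : ι → ℝ) (w m : κ → ℝ) : Prop where
  ok1 : Ok v l
  ok2 : Ok w m
  eq : ∀ t : ℝ, 0 < t → t * (1 + Xs v l t) = 1 + Xs w m (1 / t)

variable {ι κ : Type} {v l : ι → ℝ} {w m : κ → ℝ}

theorem TP.symm (h : TP v l w m) : TP w m v l := by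
  refine ⟨h.ok2, h.ok1, fun t ht => ?_⟩
  have h1 := h.eq (1 / t) (by positivity)
  rw [one_div_one_div] at h1
  rw [← h1]
  field_simp

theorem Xs_nonneg (h : Ok v l) (t : ℝ) : 0 ≤ Xs v l t :=
  tsum_nonneg fun i => mul_nonneg (h.v0 i) (Real.exp_pos _).le

/-- polynomials are bounded by exponentials -/
theorem poly_bound (P : ℝ[X]) : ∃ C : ℝ, 0 ≤ C ∧ ∀ y : ℝ, 0 ≤ y →
    |P.eval y| ≤ C * Real.exp (y / 2) := by
  induction P using Polynomial.induction_on' with
  | add p q hp hq =>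
    obtain ⟨C, hC, h1⟩ := hp
    obtain ⟨C', hC', h2⟩ := hq
    refine ⟨C + C', by positivity, fun y hy => ?_⟩
    rw [eval_add, add_mul]
    exact (abs_add_le _ _).trans (add_le_add (h1 y hy) (h2 y hy))
  | monomial n a =>
    refine ⟨|a| * (2 ^ n * n.factorial), by positivity, fun y hy => ?_⟩
    rw [eval_monomial, abs_mul, abs_of_nonneg (pow_nonneg hy n), mul_assoc]
    refine mul_le_mul_of_nonneg_left ?_ (abs_nonneg _)
    have h1 := Real.pow_div_factorial_le_exp (y / 2) (by positivity) n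
    rw [div_pow, div_div, div_le_iff₀ (by positivity)] at h1
    linarith

/-- the polynomial attached to the derivative -/
noncomputable def Eop (P : ℝ[X]) : ℝ[X] := X * derivative P - X * P

theorem summable_poly (h : Ok v l) (P : ℝ[X]) {t : ℝ} (ht : 0 < t) :
    Summable fun i => v i * (P.eval (t * l i) * Real.exp (-(t * l i))) := by
  obtain ⟨C, hC, hP⟩ := poly_bound P
  refine Summable.of_norm_bounded ((h.sm (t / 2) (by positivity)).mul_left C) fun i => ?_
  have h1 : 0 ≤ t * l i := mul_nonneg ht.le (h.l0 i)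
  rw [Real.norm_eq_abs, abs_mul, abs_of_nonneg (h.v0 i), abs_mul, abs_of_pos (Real.exp_pos _)]
  have h2 := hP _ h1
  calc v i * (|P.eval (t * l i)| * Real.exp (-(t * l i)))
      ≤ v i * ((C * Real.exp (t * l i / 2)) * Real.exp (-(t * l i))) := by
        gcongr
        exact h.v0 i
    _ = C * (v i * Real.exp (-(t / 2 * l i))) := by
        rw [mul_assoc C, ← Real.exp_add]
        ring_nf

/-- the value of a polynomial against the series -/
noncomputable def Zs (v l : ι → ℝ) (P : ℝ[X]) (x : ℝ) : ℝ :=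
  ∑' i, v i * (P.eval (Real.exp x * l i) * Real.exp (-(Real.exp x * l i)))

theorem Zs_hasDerivAt (h : Ok v l) (P : ℝ[X]) (x : ℝ) :
    HasDerivAt (Zs v l P) (Zs v l (Eop P) x) x := by
  obtain ⟨C, hC, hP⟩ := poly_bound (Eop P)
  set c : ℝ := Real.exp (x - 1) / 2 with hc
  have hc0 : 0 < c := by positivity
  have hx : x ∈ Ioi (x - 1) := by simp
  have hg : ∀ (i : ι) (y : ℝ), y ∈ Ioi (x - 1) → HasDerivAt
      (fun y : ℝ => v i * (P.eval (Real.exp y * l i) * Real.exp (-(Real.exp y * l i))))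
      (v i * ((Eop P).eval (Real.exp y * l i) * Real.exp (-(Real.exp y * l i)))) y := by
    intro i y _
    have h1 : HasDerivAt (fun y => Real.exp y * l i) (Real.exp y * l i) y :=
      (Real.hasDerivAt_exp y).mul_const _
    have h2 := (P.hasDerivAt (Real.exp y * l i)).comp y h1
    have h3 : HasDerivAt (fun y => Real.exp (-(Real.exp y * l i)))
        (Real.exp (-(Real.exp y * l i)) * -(Real.exp y * l i)) y := h1.neg.exp
    have h4 := (h2.mul h3).const_mul (v i)
    refine h4.congr_deriv ?_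
    simp only [Function.comp_apply, Eop, eval_sub, eval_mul, eval_X]
    ring
  have hg' : ∀ (i : ι) (y : ℝ), y ∈ Ioi (x - 1) →
      ‖v i * ((Eop P).eval (Real.exp y * l i) * Real.exp (-(Real.exp y * l i)))‖ ≤
        C * (v i * Real.exp (-(c * l i))) := by
    intro i y hy
    have hy' : x - 1 < y := hy
    have h1 : 0 ≤ Real.exp y * l i := mul_nonneg (Real.exp_pos _).le (h.l0 i)
    rw [Real.norm_eq_abs, abs_mul, abs_of_nonneg (h.v0 i), abs_mul, abs_of_pos (Real.exp_pos _)]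
    have h2 := hP _ h1
    calc v i * (|(Eop P).eval (Real.exp y * l i)| * Real.exp (-(Real.exp y * l i)))
        ≤ v i * ((C * Real.exp (Real.exp y * l i / 2)) * Real.exp (-(Real.exp y * l i))) := by
          gcongr
          exact h.v0 i
      _ = C * (v i * Real.exp (-(Real.exp y / 2 * l i))) := by
          rw [mul_assoc C, ← Real.exp_add]
          ring_nf
      _ ≤ C * (v i * Real.exp (-(c * l i))) := by
          have h3 : c * l i ≤ Real.exp y / 2 * l i :=
            mul_le_mul_of_nonneg_right (by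
              rw [hc]
              have := Real.exp_le_exp.2 hy'.le
              linarith) (h.l0 i)
          have h4 := h.v0 i
          gcongr
  exact hasDerivAt_tsum_of_isPreconnected ((h.sm c hc0).mul_left C) isOpen_Ioi isPreconnected_Ioi
    hg hg' hx (summable_poly h P (Real.exp_pos x)) hx

/-- the series in the logarithmic variable, with the constant term -/
noncomputable def Ss (v l : ι → ℝ) (P : ℝ[X]) (x : ℝ) : ℝ :=
  Real.exp (x / 2) * (P.eval 0 + Zs v l P x)

/-- the Euler operator -/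
noncomputable def Dop (P : ℝ[X]) : ℝ[X] := C (1 / 2) * P + Eop P

theorem Zs_add (h : Ok v l) (P Q : ℝ[X]) (x : ℝ) : Zs v l (P + Q) x = Zs v l P x + Zs v l Q x := by
  rw [Zs, Zs, Zs, ← (summable_poly h P (Real.exp_pos x)).tsum_add
    (summable_poly h Q (Real.exp_pos x))]
  refine tsum_congr fun i => ?_
  rw [eval_add]
  ring

theorem Zs_C_mul (c : ℝ) (P : ℝ[X]) (x : ℝ) : Zs v l (C c * P) x = c * Zs v l P x := by
  rw [Zs, Zs, ← tsum_mul_left]
  refine tsum_congr fun i => ?_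
  rw [eval_mul, eval_C]
  ring

theorem Ss_hasDerivAt (h : Ok v l) (P : ℝ[X]) (x : ℝ) :
    HasDerivAt (Ss v l P) (Ss v l (Dop P) x) x := by
  have h1 : HasDerivAt (fun x : ℝ => Real.exp (x / 2)) (Real.exp (x / 2) * (1 / 2)) x :=
    ((hasDerivAt_id x).div_const 2).exp
  have h2 := h1.mul ((Zs_hasDerivAt h P x).const_add (P.eval 0))
  refine h2.congr_deriv ?_
  rw [Ss, Dop, Zs_add h, Zs_C_mul]
  simp only [eval_add, eval_mul, eval_C, Eop, eval_sub, eval_X, zero_mul, sub_zero, add_zero]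
  ring

theorem Ss_add (h : Ok v l) (P Q : ℝ[X]) (x : ℝ) : Ss v l (P + Q) x = Ss v l P x + Ss v l Q x := by
  rw [Ss, Ss, Ss, Zs_add h, eval_add]
  ring

theorem Ss_C_mul (c : ℝ) (P : ℝ[X]) (x : ℝ) : Ss v l (C c * P) x = c * Ss v l P x := by
  rw [Ss, Ss, Zs_C_mul, eval_mul, eval_C]
  ring

theorem Zs_one (x : ℝ) : Zs v l 1 x = Xs v l (Real.exp x) := by
  simp [Zs, Xs]

/-- polynomials exchanged by the functional equation -/
def Du (v l : ι → ℝ) (w m : κ → ℝ) (P Q : ℝ[X]) : Prop := ∀ x : ℝ, Ss v l P x = Ss w m Q (-x)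

theorem Du_one (h : TP v l w m) : Du v l w m 1 1 := by
  intro x
  have h1 := h.eq (Real.exp x) (Real.exp_pos x)
  rw [Ss, Ss, Zs_one, Zs_one, eval_one, Real.exp_neg, ← one_div, ← h1, ← mul_assoc, ← Real.exp_add]
  congr 2
  ring

theorem Du_Dop (h : TP v l w m) {P Q : ℝ[X]} (hPQ : Du v l w m P Q) :
    Du v l w m (Dop P) (-Dop Q) := by
  intro x
  have h1 := Ss_hasDerivAt h.ok1 P x
  have h2 : HasDerivAt (fun x => Ss w m Q (-x)) (Ss w m (Dop Q) (-x) * (-1)) x :=
    (Ss_hasDerivAt h.ok2 Q (-x)).comp x (hasDerivAt_neg x)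
  have h3 : Ss v l P = fun x => Ss w m Q (-x) := funext hPQ
  rw [h3] at h1
  rw [h1.unique h2]
  have h4 : -Dop Q = C (-1) * Dop Q := by simp
  rw [h4, Ss_C_mul]
  ring

theorem Du_add (h : TP v l w m) {P Q P' Q' : ℝ[X]} (h1 : Du v l w m P Q)
    (h2 : Du v l w m P' Q') : Du v l w m (P + P') (Q + Q') := by
  intro x
  rw [Ss_add h.ok1, Ss_add h.ok2, h1, h2]

theorem Du_C_mul {P Q : ℝ[X]} (c : ℝ) (h1 : Du v l w m P Q) :
    Du v l w m (C c * P) (C c * Q) := by
  intro x
  rw [Ss_C_mul, Ss_C_mul, h1]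

theorem Zs_nonneg (h : Ok v l) {P : ℝ[X]} (hP : ∀ y : ℝ, 0 ≤ y → 0 ≤ P.eval y) (x : ℝ) :
    0 ≤ Zs v l P x := by
  refine tsum_nonneg fun i => mul_nonneg (h.v0 i) (mul_nonneg (hP _ ?_) (Real.exp_pos _).le)
  exact mul_nonneg (Real.exp_pos _).le (h.l0 i)

/-- linear programming bound -/
theorem lp (h : TP v l w m) {P Q : ℝ[X]} (hPQ : Du v l w m P Q) {t : ℝ} (ht : 0 < t)
    (hP : ∀ y : ℝ, 0 ≤ y → P.eval y ≤ Real.exp (-((t - 1) * y)))
    (hQ : ∀ y : ℝ, 0 ≤ y → 0 ≤ Q.eval y) : Q.eval 0 - P.eval 0 ≤ Xs v l t := by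
  have h1 := hPQ 0
  rw [neg_zero, Ss, Ss] at h1
  have h2 : P.eval 0 + Zs v l P 0 = Q.eval 0 + Zs w m Q 0 :=
    mul_left_cancel₀ (Real.exp_pos (0 / 2)).ne' h1
  have h3 := Zs_nonneg h.ok2 hQ 0
  have h4 : Zs v l P 0 ≤ Xs v l t := by
    rw [Zs, Xs]
    refine Summable.tsum_le_tsum (fun i => ?_) (summable_poly h.ok1 P (Real.exp_pos 0))
      (h.ok1.sm t ht)
    rw [Real.exp_zero, one_mul]
    refine mul_le_mul_of_nonneg_left ?_ (h.ok1.v0 i)
    calc P.eval (l i) * Real.exp (-l i) ≤ Real.exp (-((t - 1) * l i)) * Real.exp (-l i) :=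
          mul_le_mul_of_nonneg_right (hP _ (h.ok1.l0 i)) (Real.exp_pos _).le
      _ = Real.exp (-(t * l i)) := by
          rw [← Real.exp_add]
          ring_nf
  linarith

/-- decay of the series -/
theorem Xs_decay (h : Ok v l) : ∃ C : ℝ, 0 ≤ C ∧ ∀ t : ℝ, 1 ≤ t → t * Xs v l t ≤ C := by
  obtain ⟨ρ, hρ, hg⟩ := h.gap
  refine ⟨2 / ρ * Xs v l (1 / 2), mul_nonneg (by positivity) (Xs_nonneg h _), fun t ht => ?_⟩
  rw [Xs, Xs, ← tsum_mul_left, ← tsum_mul_left]
  refine Summable.tsum_le_tsum (fun i => ?_) ((h.sm t (by linarith)).mul_left t)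
    ((h.sm (1 / 2) (by norm_num)).mul_left _)
  by_cases hv : v i = 0
  · simp [hv]
  have hl := hg i hv
  have hl0 : 0 < l i := lt_of_lt_of_le hρ hl
  have h1 : t * l i / 2 ≤ Real.exp (t * l i / 2) := by
    have := Real.add_one_le_exp (t * l i / 2)
    linarith
  have h2 : t ≤ 2 / ρ * Real.exp (t * l i / 2) := by
    rw [div_mul_eq_mul_div, le_div_iff₀ hρ]
    nlinarith
  calc t * (v i * Real.exp (-(t * l i)))
      ≤ (2 / ρ * Real.exp (t * l i / 2)) * (v i * Real.exp (-(t * l i))) := by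
        have := h.v0 i
        gcongr
    _ = 2 / ρ * (v i * Real.exp (-(t * l i / 2))) := by
        have : Real.exp (-(t * l i / 2)) = Real.exp (t * l i / 2) * Real.exp (-(t * l i)) := by
          rw [← Real.exp_add]
          ring_nf
        rw [this]
        ring
    _ ≤ 2 / ρ * (v i * Real.exp (-(1 / 2 * l i))) := by
        have := h.v0 i
        gcongr
        nlinarith

end Pool.Agent.Helper28.RZL
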