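import Pool.Agent.Helper42.RZ2.St.R2

/-!
# Subordination: the exponentially damped Riesz kernel as a mixture of Gaussians
-/

set_option autoImplicit false

open MeasureTheory Set Filter Topology
open scoped ENNReal

namespace Pool.Agent.Helper28.RZL

open Pool.Agent.Helper42.RZ Pool.Agent.Helper42.RZ2

theorem lint_gauss : ∫⁻ y : ℝ, ENNReal.ofReal (Real.exp (-y ^ 2)) = ENNReal.ofReal (√Real.pi) := by
  have h1 := integral_gaussian 1
  have h2 : Integrable fun x : ℝ => Real.exp (-1 * x ^ 2) := integrable_exp_neg_mul_sq one_pos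
  rw [div_one] at h1
  rw [← h1, ofReal_integral_eq_lintegral_ofReal h2 (ae_of_all _ fun x => (Real.exp_pos _).le)]
  simp only [neg_mul, one_mul]

/-- half Gaussian integral -/
theorem lint_half : ∫⁻ x in Ioi (0 : ℝ), ENNReal.ofReal (Real.exp (-x ^ 2)) =
    ENNReal.ofReal (√Real.pi / 2) := by
  have h1 := integral_gaussian_Ioi 1
  have h2 : Integrable (fun x : ℝ => Real.exp (-1 * x ^ 2)) (volume.restrict (Ioi 0)) :=
    (integrable_exp_neg_mul_sq one_pos).integrableOn
  rw [div_one] at h1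
  rw [← h1, ofReal_integral_eq_lintegral_ofReal h2 (ae_of_all _ fun x => (Real.exp_pos _).le)]
  simp only [neg_mul, one_mul]

theorem half_of_two_mul {J : ℝ≥0∞} {a : ℝ} (ha : 0 ≤ a) (h : J + J = ENNReal.ofReal a) :
    J = ENNReal.ofReal (a / 2) := by
  have h1 : J ≠ ⊤ := by
    intro hJ
    rw [hJ] at h
    simp at h
  have h2 : ENNReal.ofReal (J.toReal + J.toReal) = ENNReal.ofReal a := by
    rw [ENNReal.ofReal_add ENNReal.toReal_nonneg ENNReal.toReal_nonneg, ENNReal.ofReal_toReal h1, h]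
  have h3 : J.toReal + J.toReal = a :=
    (ENNReal.ofReal_eq_ofReal_iff (by positivity) ha).1 h2
  rw [← ENNReal.ofReal_toReal h1, ← h3]
  congr 1
  ring

/-- the Cauchy substitution -/
theorem cauchy_sub {c : ℝ} (hc : 0 < c) :
    ∫⁻ x in Ioi (0 : ℝ), ENNReal.ofReal (Real.exp (-(x - c / x) ^ 2)) =
      ENNReal.ofReal (√Real.pi / 2) := by
  have hm : Measurable fun x : ℝ => ENNReal.ofReal (Real.exp (-(x - c / x) ^ 2)) := by fun_prop
  refine half_of_two_mul (Real.sqrt_nonneg _) ?_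
  -- first substitution
  have h1 : (∫⁻ x in Ioi (0 : ℝ), ENNReal.ofReal (Real.exp (-(x - c / x) ^ 2))) =
      ∫⁻ x in Ioi (0 : ℝ), ENNReal.ofReal (c / x ^ 2) *
        ENNReal.ofReal (Real.exp (-(x - c / x) ^ 2)) := by
    have h2 := lintegral_image_eq_lintegral_abs_deriv_mul (s := Ioi (0 : ℝ)) (f := fun x => c / x)
      (f' := fun x => -c / x ^ 2) measurableSet_Ioi
      (fun x hx => by
        have hx0 : x ≠ 0 := (mem_Ioi.1 hx).ne'
        have h3 := ((hasDerivAt_const x c).div (hasDerivAt_id x) hx0).hasDerivWithinAt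
          (s := Ioi (0 : ℝ))
        refine h3.congr_deriv ?_
        simp)
      (fun x hx y hy hxy => by
        have hx0 : x ≠ 0 := (mem_Ioi.1 hx).ne'
        have hy0 : y ≠ 0 := (mem_Ioi.1 hy).ne'
        have h3 : c / x = c / y := hxy
        rw [div_eq_div_iff hx0 hy0] at h3
        exact (mul_left_cancel₀ hc.ne' h3).symm)
      (fun x => ENNReal.ofReal (Real.exp (-(x - c / x) ^ 2)))
    have h4 : (fun x : ℝ => c / x) '' Ioi 0 = Ioi 0 := by
      ext y
      constructor
      · rintro ⟨x, hx, rfl⟩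
        have : 0 < x := hx
        exact mem_Ioi.2 (by positivity)
      · intro hy
        have hy' : 0 < y := hy
        refine ⟨c / y, mem_Ioi.2 (by positivity), ?_⟩
        field_simp
    rw [h4] at h2
    rw [h2]
    refine setLIntegral_congr_fun measurableSet_Ioi fun x hx => ?_
    have hx0 : 0 < x := hx
    congr 2
    · rw [neg_div, abs_neg, abs_of_pos (by positivity)]
    · congr 1
      have : c / (c / x) = x := by field_simp
      rw [this]
      ring
  -- second substitution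
  have h5 := lintegral_image_eq_lintegral_abs_deriv_mul (s := Ioi (0 : ℝ))
    (f := fun x => x - c / x) (f' := fun x => 1 + c / x ^ 2) measurableSet_Ioi
    (fun x hx => by
      have hx0 : x ≠ 0 := (mem_Ioi.1 hx).ne'
      have h3 := ((hasDerivAt_id x).sub ((hasDerivAt_const x c).div (hasDerivAt_id x)
        hx0)).hasDerivWithinAt (s := Ioi (0 : ℝ))
      refine h3.congr_deriv ?_
      simp
      ring)
    (fun x hx y hy hxy => by
      have hx0 : 0 < x := hx
      have hy0 : 0 < y := hy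
      have h3 : x - c / x = y - c / y := hxy
      have h4 : (x - y) * (1 + c / (x * y)) = 0 := by
        have h5 : (x - y) * (1 + c / (x * y)) = (x - c / x) - (y - c / y) := by
          field_simp
          ring
        rw [h5, h3, sub_self]
      rcases mul_eq_zero.1 h4 with h6 | h6
      · linarith
      · have : 0 < 1 + c / (x * y) := by positivity
        linarith)
    (fun y => ENNReal.ofReal (Real.exp (-y ^ 2)))
  have h6 : (fun x : ℝ => x - c / x) '' Ioi 0 = univ := by
    ext y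
    simp only [mem_univ, iff_true]
    have h7 : 0 < y ^ 2 + 4 * c := by positivity
    have h8 : |y| < √(y ^ 2 + 4 * c) := by
      rw [← Real.sqrt_sq_eq_abs]
      exact Real.sqrt_lt_sqrt (sq_nonneg y) (by linarith)
    have h9 : 0 < (y + √(y ^ 2 + 4 * c)) / 2 := by
      have := neg_abs_le y
      linarith
    refine ⟨(y + √(y ^ 2 + 4 * c)) / 2, h9, ?_⟩
    have h10 := Real.sq_sqrt h7.le
    obtain ⟨z, hz⟩ : ∃ z : ℝ, z = (y + √(y ^ 2 + 4 * c)) / 2 := ⟨_, rfl⟩
    rw [← hz] at h9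
    have h11 : z * z = y * z + c := by
      rw [hz]
      nlinarith
    change (y + √(y ^ 2 + 4 * c)) / 2 - c / ((y + √(y ^ 2 + 4 * c)) / 2) = y
    rw [← hz, sub_eq_iff_eq_add]
    field_simp
    linarith
  rw [h6, Measure.restrict_univ, lint_gauss] at h5
  rw [h5]
  conv_lhs => rw [h1]
  conv_lhs => arg 2; rw [← h1]
  rw [← lintegral_add_right _ hm]
  refine setLIntegral_congr_fun measurableSet_Ioi fun x hx => ?_
  have hx0 : 0 < x := hx
  rw [abs_of_pos (by positivity), ENNReal.ofReal_add (by norm_num) (by positivity),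
    ENNReal.ofReal_one]
  ring

/-- the half Gaussian probability measure -/
noncomputable def m1 : Measure ℝ := (volume.restrict (Ioi 0)).withDensity fun x =>
  ENNReal.ofReal (2 / √Real.pi * Real.exp (-x ^ 2))

theorem lint_m1 {f : ℝ → ℝ≥0∞} (hf : Measurable f) : ∫⁻ x, f x ∂m1 =
    ∫⁻ x in Ioi (0 : ℝ), ENNReal.ofReal (2 / √Real.pi * Real.exp (-x ^ 2)) * f x := by
  rw [m1, lintegral_withDensity_eq_lintegral_mul _ (by fun_prop) hf]
  rfl

theorem sub_pos {c : ℝ} (hc : 0 ≤ c) : ∫⁻ x, ENNReal.ofReal (Real.exp (-(c ^ 2 / x ^ 2))) ∂m1 =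
    ENNReal.ofReal (Real.exp (-(2 * c))) := by
  have hpi : 0 < √Real.pi := Real.sqrt_pos.2 Real.pi_pos
  rw [lint_m1 (by fun_prop)]
  have h1 : ∀ x ∈ Ioi (0 : ℝ), ENNReal.ofReal (2 / √Real.pi * Real.exp (-x ^ 2)) *
      ENNReal.ofReal (Real.exp (-(c ^ 2 / x ^ 2))) =
      ENNReal.ofReal (2 / √Real.pi * Real.exp (-(2 * c))) *
        ENNReal.ofReal (Real.exp (-(x - c / x) ^ 2)) := by
    intro x hx
    have hx0 : 0 < x := hx
    rw [← ENNReal.ofReal_mul (by positivity), ← ENNReal.ofReal_mul (by positivity), mul_assoc,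
      mul_assoc, ← Real.exp_add, ← Real.exp_add]
    congr 3
    field_simp
    ring
  rw [setLIntegral_congr_fun measurableSet_Ioi h1, lintegral_const_mul _ (by fun_prop)]
  have h2 : ∫⁻ x in Ioi (0 : ℝ), ENNReal.ofReal (Real.exp (-(x - c / x) ^ 2)) =
      ENNReal.ofReal (√Real.pi / 2) := by
    rcases hc.eq_or_lt with h | h
    · rw [← h]
      simp only [zero_div, sub_zero]
      exact lint_half
    · exact cauchy_sub h
  rw [h2, ← ENNReal.ofReal_mul (by positivity)]
  congr 1
  field_simp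

instance : IsProbabilityMeasure m1 := ⟨by
  have h := sub_pos (c := 0) le_rfl
  simpa using h⟩

/-- the density of the Riesz kernel -/
noncomputable def m2 (s : ℝ) : Measure ℝ := (volume.restrict (Ioi 0)).withDensity fun u =>
  ENNReal.ofReal (Real.pi ^ (s / 2) / Real.Gamma (s / 2) * u ^ (s / 2 - 1))

instance (s : ℝ) : SFinite (m2 s) := by
  unfold m2
  infer_instance

theorem m2_meas (s : ℝ) : Measurable fun u : ℝ =>
    ENNReal.ofReal (Real.pi ^ (s / 2) / Real.Gamma (s / 2) * u ^ (s / 2 - 1)) := by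
  fun_prop

theorem lint_m2 (s : ℝ) {f : ℝ → ℝ≥0∞} (hf : Measurable f) : ∫⁻ x, f x ∂(m2 s) =
    ∫⁻ u in Ioi (0 : ℝ), ENNReal.ofReal (Real.pi ^ (s / 2) / Real.Gamma (s / 2) *
      u ^ (s / 2 - 1)) * f u := by
  rw [m2, lintegral_withDensity_eq_lintegral_mul _ (m2_meas s) hf]
  rfl

theorem riesz_gauss {s r : ℝ} (h0 : 0 < s) (hr : 0 < r) :
    ∫⁻ u, ENNReal.ofReal (Real.exp (-(u * (Real.pi * r ^ 2)))) ∂(m2 s) =
      ENNReal.ofReal (r ^ (-s)) := by
  have hG : 0 < Real.Gamma (s / 2) := Real.Gamma_pos_of_pos (by positivity)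
  have hpi := Real.pi_pos
  rw [lint_m2 s (by fun_prop)]
  have h1 := Real.integral_rpow_mul_exp_neg_mul_Ioi (a := s / 2) (r := Real.pi * r ^ 2)
    (by positivity) (by positivity)
  have h2 : Integrable (fun t : ℝ => t ^ (s / 2 - 1) * Real.exp (-(Real.pi * r ^ 2 * t)))
      (volume.restrict (Ioi 0)) := by
    by_contra h
    rw [integral_undef h] at h1
    have : 0 < (1 / (Real.pi * r ^ 2)) ^ (s / 2) * Real.Gamma (s / 2) := by positivity
    linarith
  have h3 : ∫⁻ u in Ioi (0 : ℝ), ENNReal.ofReal (u ^ (s / 2 - 1) *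
      Real.exp (-(Real.pi * r ^ 2 * u))) =
      ENNReal.ofReal ((1 / (Real.pi * r ^ 2)) ^ (s / 2) * Real.Gamma (s / 2)) := by
    rw [← h1, ofReal_integral_eq_lintegral_ofReal h2]
    filter_upwards [ae_restrict_mem measurableSet_Ioi] with u hu
    have hu0 : 0 < u := hu
    positivity
  have h4 : ∀ u ∈ Ioi (0 : ℝ), ENNReal.ofReal (Real.pi ^ (s / 2) / Real.Gamma (s / 2) *
      u ^ (s / 2 - 1)) * ENNReal.ofReal (Real.exp (-(u * (Real.pi * r ^ 2)))) =
      ENNReal.ofReal (Real.pi ^ (s / 2) / Real.Gamma (s / 2)) *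
        ENNReal.ofReal (u ^ (s / 2 - 1) * Real.exp (-(Real.pi * r ^ 2 * u))) := by
    intro u hu
    have hu0 : 0 < u := hu
    rw [← ENNReal.ofReal_mul (by positivity), ← ENNReal.ofReal_mul (by positivity), mul_assoc]
    congr 4
    ring_nf
  rw [setLIntegral_congr_fun measurableSet_Ioi h4, lintegral_const_mul _ (by fun_prop), h3,
    ← ENNReal.ofReal_mul (by positivity)]
  congr 1
  rw [one_div, Real.inv_rpow (by positivity), Real.mul_rpow hpi.le (by positivity),
    ← Real.rpow_natCast, ← Real.rpow_mul hr.le]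
  have h5 : ((2 : ℕ) : ℝ) * (s / 2) = s := by push_cast; ring
  rw [h5, Real.rpow_neg hr.le]
  field_simp

/-- the mixing measure -/
noncomputable def kap (s : ℝ) : Measure (ℝ × ℝ) := m1.prod (m2 s)

/-- the Gaussian parameter -/
noncomputable def tw (w : ℝ) (p : ℝ × ℝ) : ℝ := p.2 + w ^ 2 / (4 * Real.pi * p.1 ^ 2)

theorem measurable_tw (w : ℝ) : Measurable (tw w) := by
  unfold tw
  fun_prop

/-- the damped kernel is a mixture of Gaussians -/
theorem mix {s w r : ℝ} (h0 : 0 < s) (hw : 0 ≤ w) (hr : 0 < r) :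
    ∫⁻ p, ENNReal.ofReal (Real.exp (-(tw w p * (Real.pi * r ^ 2)))) ∂(kap s) =
      ENNReal.ofReal (ph s w r) := by
  have hpi := Real.pi_pos
  have h1 : ∀ p : ℝ × ℝ, ENNReal.ofReal (Real.exp (-(tw w p * (Real.pi * r ^ 2)))) =
      ENNReal.ofReal (Real.exp (-((w * r / 2) ^ 2 / p.1 ^ 2))) *
        ENNReal.ofReal (Real.exp (-(p.2 * (Real.pi * r ^ 2)))) := by
    intro p
    rw [← ENNReal.ofReal_mul (Real.exp_pos _).le, ← Real.exp_add]
    congr 2
    rw [tw]
    by_cases hp : p.1 = 0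
    · simp [hp]
    · field_simp
      ring
  simp only [h1]
  rw [kap, lintegral_prod_mul (f := fun x => ENNReal.ofReal (Real.exp (-((w * r / 2) ^ 2 / x ^ 2))))
    (g := fun u => ENNReal.ofReal (Real.exp (-(u * (Real.pi * r ^ 2))))) (by fun_prop)
    (by fun_prop), sub_pos (by positivity), riesz_gauss h0 hr,
    ← ENNReal.ofReal_mul (Real.exp_pos _).le]
  congr 1
  rw [ph, K, mul_comm]
  congr 2
  ring

theorem mix_int {s w r : ℝ} (h0 : 0 < s) (hw : 0 ≤ w) (hr : 0 < r) :
    Integrable (fun p => Real.exp (-(tw w p * (Real.pi * r ^ 2)))) (kap s) ∧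
      ∫ p, Real.exp (-(tw w p * (Real.pi * r ^ 2))) ∂(kap s) = ph s w r := by
  have h1 := mix h0 hw hr
  have hm : Measurable fun p => Real.exp (-(tw w p * (Real.pi * r ^ 2))) := by
    have := measurable_tw w
    fun_prop
  constructor
  · refine ⟨hm.aestronglyMeasurable, ?_⟩
    rw [hasFiniteIntegral_iff_ofReal (ae_of_all _ fun p => (Real.exp_pos _).le), h1]
    exact ENNReal.ofReal_lt_top
  · rw [integral_eq_lintegral_of_nonneg_ae (ae_of_all _ fun p => (Real.exp_pos _).le)
      hm.aestronglyMeasurable, h1, ENNReal.toReal_ofReal (ph_nonneg hr.le)]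

end Pool.Agent.Helper28.RZL
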